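import Pool.Agent.TH668.Met.Gen

set_option autoImplicit false

/-! Metric theorems for vectors of sequences: the mean square of an exponential sum over a dyadic block
with an arbitrary perturbation (after `Pool.Agent.TH668.Met.Gen`). -/

namespace Pool.Agent.N54.ME

open Finset Filter MeasureTheory
open Pool.Agent.TH668.Met
open Pool.Agent.H469R2.NK (e norm_e e_add conj_e)

lemma mean_sq_b (μ : Measure ℝ) [IsFiniteMeasure μ] (s : Finset ℕ) (F : ℕ → ℝ → ℝ)
    (hF : ∀ n, Continuous (F n)) (θ : ℝ) (b : ℕ → ℝ) :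
    ∫ x, ‖∑ n ∈ s, e (θ * F n x + b n)‖ ^ 2 ∂μ ≤
      ∑ n ∈ s, ∑ m ∈ s, ‖∫ x, e (θ * (F n x - F m x)) ∂μ‖ := by
  have hint : ∀ n m, Integrable (fun x => e (b n - b m) * e (θ * (F n x - F m x))) μ := by
    intro n m
    refine Integrable.of_bound (Continuous.aestronglyMeasurable ?_) 1 ?_
    · exact continuous_const.mul
        (continuous_e.comp (continuous_const.mul ((hF n).sub (hF m))))
    · exact Eventually.of_forall fun x => by rw [norm_mul, norm_e, norm_e, one_mul]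
  have hsq : ∀ x, ((‖∑ n ∈ s, e (θ * F n x + b n)‖ ^ 2 : ℝ) : ℂ) =
      ∑ n ∈ s, ∑ m ∈ s, e (b n - b m) * e (θ * (F n x - F m x)) := by
    intro x
    push_cast
    rw [← Complex.mul_conj', map_sum, sum_mul_sum]
    refine sum_congr rfl fun n _ => sum_congr rfl fun m _ => ?_
    rw [conj_e, ← e_add, ← e_add]
    congr 1
    ring
  have h1 : ((∫ x, ‖∑ n ∈ s, e (θ * F n x + b n)‖ ^ 2 ∂μ : ℝ) : ℂ) =
      ∑ n ∈ s, ∑ m ∈ s, ∫ x, e (b n - b m) * e (θ * (F n x - F m x)) ∂μ := by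
    rw [← integral_complex_ofReal]
    simp_rw [hsq]
    rw [integral_finsetSum _ fun n _ => integrable_finsetSum _ fun m _ => hint n m]
    refine sum_congr rfl fun n _ => ?_
    rw [integral_finsetSum _ fun m _ => hint n m]
  calc ∫ x, ‖∑ n ∈ s, e (θ * F n x + b n)‖ ^ 2 ∂μ =
      ‖((∫ x, ‖∑ n ∈ s, e (θ * F n x + b n)‖ ^ 2 ∂μ : ℝ) : ℂ)‖ := by
        rw [Complex.norm_real, Real.norm_of_nonneg (integral_nonneg fun x => by positivity)]
    _ ≤ _ := by
        rw [h1]
        refine (norm_sum_le _ _).trans (sum_le_sum fun n _ => (norm_sum_le _ _).trans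
          (sum_le_sum fun m _ => le_of_eq ?_))
        rw [integral_const_mul, norm_mul, norm_e, one_mul]

/-- mean square of the exponential sum over a dyadic block -/
lemma block_b (P : ℕ → Prop) [DecidablePred P] (u v ρ : ℝ) (huv : u ≤ v) (n₀ : ℕ) (F F' F'' : ℕ → ℝ → ℝ)
    (hF : Fam u v ρ n₀ F F' F'') (hρ : 0 < ρ) (hρ1 : ρ ≤ 1) (η : ℝ) (hη : η ≤ ρ / 8) :
    ∀ᶠ N : ℕ in atTop, ∀ (θ : ℝ) (b : ℕ → ℝ), (N : ℝ) ^ (-η) ≤ θ →
      ∫ x, ‖∑ n ∈ (Finset.Ioc N (2 * N)).filter P, e (θ * F n x + b n)‖ ^ 2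
        ∂(volume.restrict (Set.Ioc u v)) ≤
        (4 * (v - u) + 1) * (N : ℝ) ^ (2 - ρ / 4) := by
  have hlim : Tendsto (fun N : ℕ => (N : ℝ) ^ (ρ / 8)) atTop atTop :=
    (tendsto_rpow_atTop (by linarith)).comp tendsto_natCast_atTop_atTop
  filter_upwards [hlim.eventually_ge_atTop 2, eventually_ge_atTop n₀, eventually_ge_atTop 1]
    with N hN2 hNn hN1
  intro θ b hθ
  have hNr : (1 : ℝ) ≤ N := by exact_mod_cast hN1
  have hN0 : (0 : ℝ) < N := by linarith
  have huv0 : 0 ≤ v - u := by linarith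
  set H : ℕ := ⌈(N : ℝ) ^ (1 - ρ / 2)⌉₊ with hH
  have hHlow : (N : ℝ) ^ (1 - ρ / 2) ≤ H := Nat.le_ceil _
  have hpow1 : (1 : ℝ) ≤ (N : ℝ) ^ (1 - ρ / 2) := Real.one_le_rpow hNr (by linarith)
  have hHup : (H : ℝ) ≤ 2 * (N : ℝ) ^ (1 - ρ / 2) := by
    have := Nat.ceil_lt_add_one (show (0 : ℝ) ≤ (N : ℝ) ^ (1 - ρ / 2) by positivity)
    rw [← hH] at this
    linarith
  have hH1 : 1 ≤ H := by
    have : (1 : ℝ) ≤ H := hpow1.trans hHlow
    exact_mod_cast this
  have hθ0 : 0 < θ := lt_of_lt_of_le (by positivity) hθ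
  set T : ℝ := (N : ℝ) ^ (ρ / 4) with hT
  have hT1 : 1 ≤ T := Real.one_le_rpow hNr (by linarith)
  have hT0 : 0 < T := by linarith
  have hcont : ∀ n, Continuous (F n) := fun n =>
    continuous_iff_continuousAt.2 fun x => (hF.d1 n x).continuousAt
  -- far pairs
  have hkey : ∀ n m : ℕ, n ∈ Finset.Ioc N (2 * N) → m ∈ Finset.Ioc N (2 * N) → n + H ≤ m →
      ‖∫ x, e (θ * (F m x - F n x)) ∂(volume.restrict (Set.Ioc u v))‖ ≤ 1 / T := by
    intro n m hn hm hnm
    rw [Finset.mem_Ioc] at hn hm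
    obtain ⟨k, rfl⟩ := Nat.exists_eq_add_of_le (show n ≤ m by omega)
    have hk : (H : ℝ) ≤ k := by
      have : H ≤ k := by omega
      exact_mod_cast this
    have h2 : (2 : ℝ)⁻¹ * (N : ℝ) ^ (ρ - 1) ≤ (2 * N : ℝ) ^ (ρ - 1) := by
      rw [Real.mul_rpow (by norm_num) hN0.le]
      apply mul_le_mul_of_nonneg_right _ (by positivity)
      rw [← Real.rpow_neg_one]
      exact Real.rpow_le_rpow_of_exponent_le (by norm_num) (by linarith)
    have hT2 : T ≤ θ * (k * (2 * N : ℝ) ^ (ρ - 1)) := by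
      calc T = (N : ℝ) ^ (ρ / 4) := rfl
        _ = 2 * (2⁻¹ * (N : ℝ) ^ (ρ / 4)) := by ring
        _ ≤ (N : ℝ) ^ (ρ / 8) * (2⁻¹ * (N : ℝ) ^ (ρ / 4)) := by gcongr
        _ = 2⁻¹ * (N : ℝ) ^ (-(ρ / 8) + (1 - ρ / 2) + (ρ - 1)) := by
            rw [show -(ρ / 8) + (1 - ρ / 2) + (ρ - 1) = ρ / 8 + ρ / 4 by ring, Real.rpow_add hN0]
            ring
        _ ≤ 2⁻¹ * (N : ℝ) ^ (-η + (1 - ρ / 2) + (ρ - 1)) := by
            gcongr
        _ = (N : ℝ) ^ (-η) * ((N : ℝ) ^ (1 - ρ / 2) * (2⁻¹ * (N : ℝ) ^ (ρ - 1))) := by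
            rw [Real.rpow_add hN0, Real.rpow_add hN0]
            ring
        _ ≤ θ * (k * (2 * N : ℝ) ^ (ρ - 1)) := by
            gcongr
            exact hHlow.trans hk
    rw [← intervalIntegral.integral_of_le huv]
    apply vdc u v T huv (fun x => θ * (F (n + k) x - F n x))
      (fun x => θ * (F' (n + k) x - F' n x)) (fun x => θ * (F'' (n + k) x - F'' n x))
      (fun x => ((hF.d1 _ x).sub (hF.d1 _ x)).const_mul θ)
      (fun x => ((hF.d2 _ x).sub (hF.d2 _ x)).const_mul θ)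
      (continuous_const.mul ((hF.co _).sub (hF.co _))) hT0
    · intro x hx
      have h3 := (hF.far hρ1 N hN1 hNn n k (by omega) hm.2 x hx).1
      refine hT2.trans ?_
      gcongr
    · intro x hx
      have h3 := (hF.far hρ1 N hN1 hNn n k (by omega) hm.2 x hx).2
      positivity
  have hcard : (((Finset.Ioc N (2 * N)).filter P).card : ℝ) ≤ N := by
    have h1 : ((Finset.Ioc N (2 * N)).filter P).card ≤ N := by
      refine (card_filter_le _ _).trans (le_of_eq ?_)
      rw [Nat.card_Ioc]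
      omega
    exact_mod_cast h1
  have hvol : (volume.restrict (Set.Ioc u v)).real Set.univ = v - u := by
    rw [measureReal_restrict_apply_univ, measureReal_def, Real.volume_Ioc,
      ENNReal.toReal_ofReal huv0]
  calc ∫ x, ‖∑ n ∈ (Finset.Ioc N (2 * N)).filter P, e (θ * F n x + b n)‖ ^ 2
        ∂(volume.restrict (Set.Ioc u v)) ≤
      ∑ n ∈ (Finset.Ioc N (2 * N)).filter P, ∑ m ∈ (Finset.Ioc N (2 * N)).filter P,
        ‖∫ x, e (θ * (F n x - F m x)) ∂(volume.restrict (Set.Ioc u v))‖ :=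
        mean_sq_b _ _ F hcont θ b
    _ ≤ ((Finset.Ioc N (2 * N)).filter P).card * (2 * H) * (v - u) +
        (((Finset.Ioc N (2 * N)).filter P).card : ℝ) ^ 2 * (1 / T) := by
        apply pair_sum _ _ _ _ H hH1
        · intro n m
          refine (norm_integral_le_integral_norm _).trans (le_of_eq ?_)
          simp only [norm_e]
          rw [integral_const, smul_eq_mul, mul_one, hvol]
        · intro n hn m hm hnm
          have hn := mem_of_mem_filter _ hn
          have hm := mem_of_mem_filter _ hm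
          rcases hnm with h | h
          · refine le_trans (le_of_eq ?_) (hkey n m hn hm h)
            rw [← Complex.norm_conj, ← integral_conj]
            congr 2
            ext x
            rw [conj_e]
            congr 1
            ring
          · exact hkey m n hm hn h
        · positivity
        · exact huv0
    _ ≤ (N : ℝ) * (2 * H) * (v - u) + (N : ℝ) ^ 2 * (1 / T) := by gcongr
    _ ≤ 4 * (v - u) * (N : ℝ) ^ (2 - ρ / 2) + (N : ℝ) ^ (2 - ρ / 4) := by
        apply add_le_add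
        · calc (N : ℝ) * (2 * H) * (v - u) ≤ N * (2 * (2 * (N : ℝ) ^ (1 - ρ / 2))) * (v - u) := by
                gcongr
            _ = 4 * (v - u) * ((N : ℝ) ^ (1 : ℝ) * (N : ℝ) ^ (1 - ρ / 2)) := by
                rw [Real.rpow_one]; ring
            _ = 4 * (v - u) * (N : ℝ) ^ (2 - ρ / 2) := by
                rw [← Real.rpow_add hN0]; ring_nf
        · apply le_of_eq
          rw [one_div, hT, ← Real.rpow_neg hN0.le, ← Real.rpow_natCast, ← Real.rpow_add hN0]
          congr 1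
    _ ≤ 4 * (v - u) * (N : ℝ) ^ (2 - ρ / 4) + (N : ℝ) ^ (2 - ρ / 4) := by
        have h7 : (N : ℝ) ^ (2 - ρ / 2) ≤ (N : ℝ) ^ (2 - ρ / 4) :=
          Real.rpow_le_rpow_of_exponent_le hNr (by linarith)
        have h8 : 0 ≤ 4 * (v - u) := by linarith
        have := mul_le_mul_of_nonneg_left h7 h8
        linarith
    _ = _ := by ring

end Pool.Agent.N54.ME
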