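import Pool.Agent.N54.ME.Three
import Pool.Agent.N647.TS.Thin

set_option autoImplicit false

/-! From well distributed families to well distributed sequences (after `Pool.Agent.N647.TS.Conv`). -/

namespace Pool.Agent.N54.ME

open Finset Filter Topology
open Pool.Agent.N647.TS

open Classical in
theorem ws_conv {d : ℕ} {κ₁ : ℝ} (hκ₁ : 0 < κ₁) (M : ℕ) : ∃ κ₀ : ℝ, 0 < κ₀ ∧
    ∀ (x : ℕ → Fin d → ℤ) (v : ℕ → Fin d → ℕ), WS x κ₁ → (∀ᶠ n : ℕ in atTop, ∀ i, x n i = (v n i : ℤ)) →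
    ∃ y₀ : ℕ, ∀ y N A : ℕ, y₀ ≤ y →
    ∀ R : ℕ → (Fin d → ℕ) → Prop,
    (∀ (S : Finset ℕ) (v : ℕ → Fin d → ℕ) (H : ℕ), WellN S v H → ∀ E : (Fin d → ℕ) → Prop,
      (∀ m, (∀ n : ℕ, y ≤ n → n ^ M ≤ 2 * H + 1 → R n m) → E m) →
      ((S.filter fun t => ¬ E (v t)).card : ℝ) ≤ 1 / (y : ℝ) ^ A * S.card) →
    ∀ E : (Fin d → ℕ) → Prop, (∀ m, (∀ n : ℕ, y ≤ n → (n : ℝ) ≤ (N : ℝ) ^ κ₀ → R n m) → E m) →
    (((Ioc N (2 * N)).filter fun t => ¬ E (v t)).card : ℝ) ≤ 1 / (y : ℝ) ^ A * N ∧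
    ((((Ioc N (2 * N)).filter Nat.Prime).filter fun t => ¬ E (v t)).card : ℝ) ≤
      1 / (y : ℝ) ^ A * ((Ioc N (2 * N)).filter Nat.Prime).card := by
  obtain ⟨κ₀, hκ₀⟩ : ∃ κ₀ : ℝ, κ₀ = κ₁ / (M + 1) := ⟨_, rfl⟩
  have hκ0 : 0 < κ₀ := by rw [hκ₀]; positivity
  refine ⟨κ₀, hκ0, fun x v hw hv => ?_⟩
  obtain ⟨N₂, h₂⟩ := hw
  obtain ⟨N₃, h₃⟩ := eventually_atTop.1 hv
  obtain ⟨N₁, hN₁⟩ : ∃ N₁ : ℕ, N₁ = N₂ + N₃ := ⟨_, rfl⟩
  obtain ⟨y₂, hy₂⟩ := exists_nat_gt ((N₁ : ℝ) ^ κ₀)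
  refine ⟨y₂ + 1, fun y N A hy R hM E hE => ?_⟩
  by_cases hN : N₁ ≤ N
  · obtain ⟨J, hJ⟩ : ∃ J : ℕ, J = ⌊(N : ℝ) ^ κ₁⌋₊ := ⟨_, rfl⟩
    have hJ1 : (J : ℝ) ≤ (N : ℝ) ^ κ₁ := by
      rw [hJ]
      exact Nat.floor_le (Real.rpow_nonneg (Nat.cast_nonneg _) _)
    have hJ2 : (N : ℝ) ^ κ₁ < J + 1 := by
      rw [hJ]
      exact Nat.lt_floor_add_one _
    have hw1 : WellN (Ioc N (2 * N)) v J := by
      refine wellN_of_well (h₂ N (by omega) J hJ1).1 fun n hn i => ?_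
      rw [mem_Ioc] at hn
      exact h₃ n (by omega) i
    have hw2 : WellN (Pool.Agent.N666.VE.primes N) v J := by
      refine wellN_of_well (h₂ N (by omega) J hJ1).2 fun n hn i => ?_
      unfold Pool.Agent.N666.VE.primes at hn
      rw [mem_filter, mem_Ioc] at hn
      exact h₃ n (by omega) i
    have hE' : ∀ m : Fin d → ℕ, (∀ n : ℕ, y ≤ n → n ^ M ≤ 2 * J + 1 → R n m) → E m := by
      intro m hm
      refine hE m fun n hyn hnN => hm n hyn ?_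
      have hn1 : (1 : ℝ) ≤ n := by exact_mod_cast (by omega : 1 ≤ n)
      have hN0 : (0 : ℝ) ≤ N := Nat.cast_nonneg _
      have h3 : (n : ℝ) ^ (M + 1) ≤ (N : ℝ) ^ κ₁ := by
        calc (n : ℝ) ^ (M + 1) ≤ ((N : ℝ) ^ κ₀) ^ (M + 1) := pow_le_pow_left₀ (by positivity) hnN _
          _ = (N : ℝ) ^ κ₁ := by
              rw [← Real.rpow_natCast, ← Real.rpow_mul hN0, hκ₀]
              congr 1
              push_cast
              field_simp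
      have h4 : (n : ℝ) ^ M ≤ (n : ℝ) ^ (M + 1) := pow_le_pow_right₀ hn1 (by omega)
      have h5 : (n : ℝ) ^ M ≤ ((2 * J + 1 : ℕ) : ℝ) := by
        push_cast
        have : (0 : ℝ) ≤ J := Nat.cast_nonneg _
        linarith
      exact_mod_cast h5
    constructor
    · have := hM (Ioc N (2 * N)) v J hw1 E hE'
      rw [Nat.card_Ioc, show 2 * N - N = N by omega] at this
      exact this
    · exact hM (Pool.Agent.N666.VE.primes N) v J hw2 E hE'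
  · have hall : ∀ m, E m := by
      intro m
      refine hE m fun n hyn hnN => ?_
      exfalso
      have h2 : (N : ℝ) ^ κ₀ ≤ (N₁ : ℝ) ^ κ₀ := by
        apply Real.rpow_le_rpow (Nat.cast_nonneg _) _ hκ0.le
        exact_mod_cast (by omega : N ≤ N₁)
      have h3 : (y₂ : ℝ) ≤ n := by exact_mod_cast (by omega : y₂ ≤ n)
      linarith
    constructor
    · rw [Finset.filter_false_of_mem (fun t _ => not_not.2 (hall _)), card_empty, Nat.cast_zero]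
      positivity
    · rw [Finset.filter_false_of_mem (fun t _ => not_not.2 (hall _)), card_empty, Nat.cast_zero]
      positivity

end Pool.Agent.N54.ME
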