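import Pool.Agent.N54.ME.Line
import Pool.Agent.N666.TM.Thin

set_option autoImplicit false
set_option linter.unusedSectionVars false

/-! From exponential sums to residue classes with explicit exponents (after `Pool.Agent.N666.VE.Equi`
and `Pool.Agent.N666.TM.Thin`). -/

namespace Pool.Agent.N54.ME

open Finset Filter
open Pool.Agent.H469R2.NK (e)
open Pool.Agent.W147.PS (ev_pow)
open Pool.Agent.Y961.JR
open Pool.Agent.N666.VE (Equi cls)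
open Pool.Agent.N666.TM Pool.Agent.Y722.HS Pool.Agent.N534.LF

/-- bounded exponential sums over the sets `s N`, with the exponent `η` -/
def SmallE {r : ℕ} (η : ℝ) (s : ℕ → Finset ℕ) (x : ℕ → Fin r → ℝ) : Prop :=
  ∃ N₀ : ℕ, ∀ N : ℕ, N₀ ≤ N → ∀ h : Fin r → ℤ, h ≠ 0 →
    (∀ j, |(h j : ℝ)| ≤ (N : ℝ) ^ η) → ∀ q : ℕ, 1 ≤ q → (q : ℝ) ≤ (N : ℝ) ^ η →
    ‖∑ n ∈ s N, e (∑ j, (h j : ℝ) * (x n j / q))‖ ≤ (N : ℝ) ^ (1 - η)

theorem equi_of_smallE {r : ℕ} (hr : 1 ≤ r) (s : ℕ → Finset ℕ) (hs : ∀ N, s N ⊆ Ioc N (2 * N))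
    (x : ℕ → Fin r → ℝ) {η : ℝ} (hη : 0 < η) (hη1 : η ≤ 1) (hx : SmallE (r := r) η s x) :
    Equi s x (η / (6 * (r + 1)) / (4 * (r + 1))) := by
  classical
  obtain ⟨N₁, hN₁⟩ := hx
  have hr0 : (1 : ℝ) ≤ r := by exact_mod_cast hr
  set θ : ℝ := η / (6 * (r + 1)) with hθ
  have hθ0 : 0 < θ := by positivity
  have hθη : 3 * r * θ ≤ η / 2 := by
    rw [hθ, ← mul_div_assoc, div_le_iff₀ (by positivity)]
    nlinarith
  have hθη' : θ ≤ η / 12 := by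
    rw [hθ]
    apply div_le_div_of_nonneg_left hη.le (by norm_num) (by linarith)
  set δ : ℝ := θ / (4 * (r + 1)) with hδ
  have hδ0 : 0 < δ := by positivity
  have hδθ : r * δ ≤ θ / 4 := by
    rw [hδ, ← mul_div_assoc, div_le_iff₀ (by positivity)]
    nlinarith
  have hδθ' : δ ≤ θ / 8 := by
    rw [hδ]
    apply div_le_div_of_nonneg_left hθ0.le (by norm_num) (by linarith)
  have hev : ∀ᶠ Z : ℝ in atTop, 1 ≤ Z ∧ 1 ≤ Z ^ θ ∧ 8 * Z ^ (3 * θ) ≤ Z ^ η ∧ 3 * Z ^ δ ≤ Z ^ θ ∧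
      (2 * (3 * r + 4)) * Z ^ (1 - θ + θ / 4) ≤ Z ^ (1 - δ) ∧
      (2 * 8 ^ r) * Z ^ (1 - η / 2 + θ / 4) ≤ Z ^ (1 - δ) := by
    filter_upwards [eventually_ge_atTop (1 : ℝ), ev_pow (3 * θ) η 8 (by linarith),
      ev_pow δ θ 3 (by linarith), ev_pow (1 - θ + θ / 4) (1 - δ) (2 * (3 * r + 4)) (by linarith),
      ev_pow (1 - η / 2 + θ / 4) (1 - δ) (2 * 8 ^ r) (by linarith)] with Z h1 h2 h3 h4 h5
    exact ⟨h1, Real.one_le_rpow h1 hθ0.le, h2, h3, h4, h5⟩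
  obtain ⟨Z₀, hZ₀⟩ := eventually_atTop.mp hev
  refine ⟨⌈Z₀⌉₊ + N₁ + 1, ?_⟩
  intro N hN q hq hqN ρ
  have hNZ : Z₀ ≤ N := (Nat.le_ceil Z₀).trans (by exact_mod_cast (by omega : ⌈Z₀⌉₊ ≤ N))
  obtain ⟨hN1, hNθ, h3θ, h3δ, hA, hB⟩ := hZ₀ N hNZ
  have hN0 : (0 : ℝ) < N := by linarith
  set K : ℕ := ⌈(N : ℝ) ^ θ⌉₊ with hK
  have hK1 : (N : ℝ) ^ θ ≤ K := Nat.le_ceil _
  have hK2 : (K : ℝ) ≤ 2 * (N : ℝ) ^ θ := by
    have := Nat.ceil_lt_add_one (show 0 ≤ (N : ℝ) ^ θ by positivity)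
    linarith
  have hK1' : 1 ≤ K := by
    have : (1 : ℝ) ≤ K := hNθ.trans hK1
    exact_mod_cast this
  have hK0 : (0 : ℝ) < K := by exact_mod_cast hK1'
  have h3q : 3 * q ≤ K := by
    have : 3 * (q : ℝ) ≤ K := by linarith
    exact_mod_cast this
  have hq0 : (0 : ℝ) < q := by exact_mod_cast hq
  have hqη : (q : ℝ) ≤ (N : ℝ) ^ η :=
    hqN.trans (Real.rpow_le_rpow_of_exponent_le hN1 (by linarith))
  have hcard : ((s N).card : ℝ) ≤ N := by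
    have h1 := Finset.card_le_card (hs N)
    rw [Nat.card_Ioc] at h1
    exact_mod_cast (by omega : (s N).card ≤ N)
  have h1 := discJ hr (s N) x K q hK1' hq h3q ((N : ℝ) ^ (1 - η)) (by positivity) (by
    intro h hh hhK
    refine hN₁ N (by omega) h hh (fun j => ?_) q hq hqη
    have h2 : (((h j).natAbs : ℕ) : ℝ) ≤ ((K ^ 3 : ℕ) : ℝ) := by exact_mod_cast (hhK j).le
    rw [Nat.cast_natAbs, Int.cast_abs] at h2
    refine h2.trans ?_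
    push_cast
    calc (K : ℝ) ^ 3 ≤ (2 * (N : ℝ) ^ θ) ^ 3 := by gcongr
      _ = 8 * (N : ℝ) ^ (3 * θ) := by
          rw [mul_pow, ← Real.rpow_natCast ((N : ℝ) ^ θ) 3, ← Real.rpow_mul hN0.le]
          norm_num
          ring_nf
      _ ≤ _ := h3θ) ρ
  refine h1.trans ?_
  have hqr : (q : ℝ) ^ r ≤ (N : ℝ) ^ (θ / 4) := by
    calc (q : ℝ) ^ r ≤ ((N : ℝ) ^ δ) ^ r := by gcongr
      _ = (N : ℝ) ^ (r * δ) := by
          rw [← Real.rpow_natCast, ← Real.rpow_mul hN0.le, mul_comm]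
      _ ≤ _ := Real.rpow_le_rpow_of_exponent_le hN1 hδθ
  have hE1 : (3 * (r : ℝ) + 4) * (s N).card / K ≤ (3 * r + 4) * (N : ℝ) ^ (1 - θ) := by
    rw [div_le_iff₀ hK0]
    calc (3 * (r : ℝ) + 4) * (s N).card ≤ (3 * r + 4) * N := by gcongr
      _ = (3 * r + 4) * ((N : ℝ) ^ (1 - θ) * (N : ℝ) ^ θ) := by
          rw [← Real.rpow_add hN0]; norm_num
      _ ≤ (3 * r + 4) * ((N : ℝ) ^ (1 - θ) * K) := by gcongr
      _ = _ := by ring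
  have hE2 : (K : ℝ) ^ (3 * r) * (N : ℝ) ^ (1 - η) ≤ 8 ^ r * (N : ℝ) ^ (1 - η / 2) := by
    calc (K : ℝ) ^ (3 * r) * (N : ℝ) ^ (1 - η) ≤ (2 * (N : ℝ) ^ θ) ^ (3 * r) * (N : ℝ) ^ (1 - η) := by
          gcongr
      _ = 8 ^ r * ((N : ℝ) ^ (3 * r * θ) * (N : ℝ) ^ (1 - η)) := by
          rw [mul_pow, pow_mul (2 : ℝ) 3 r, ← Real.rpow_natCast ((N : ℝ) ^ θ), ← Real.rpow_mul hN0.le]
          push_cast
          norm_num
          ring_nf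
      _ = 8 ^ r * (N : ℝ) ^ (3 * r * θ + (1 - η)) := by rw [← Real.rpow_add hN0]
      _ ≤ _ := by
          have := Real.rpow_le_rpow_of_exponent_le hN1
            (show 3 * r * θ + (1 - η) ≤ 1 - η / 2 by linarith)
          gcongr
  calc (q : ℝ) ^ r * ((3 * r + 4) * (s N).card / K + (K : ℝ) ^ (3 * r) * (N : ℝ) ^ (1 - η))
      ≤ (N : ℝ) ^ (θ / 4) * ((3 * r + 4) * (N : ℝ) ^ (1 - θ) + 8 ^ r * (N : ℝ) ^ (1 - η / 2)) := by
        gcongr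
    _ = (2 * (3 * r + 4) * ((N : ℝ) ^ (1 - θ) * (N : ℝ) ^ (θ / 4)) +
          2 * 8 ^ r * ((N : ℝ) ^ (1 - η / 2) * (N : ℝ) ^ (θ / 4))) / 2 := by ring
    _ = (2 * (3 * r + 4) * (N : ℝ) ^ (1 - θ + θ / 4) +
          2 * 8 ^ r * (N : ℝ) ^ (1 - η / 2 + θ / 4)) / 2 := by
        rw [← Real.rpow_add hN0, ← Real.rpow_add hN0]
    _ ≤ ((N : ℝ) ^ (1 - δ) + (N : ℝ) ^ (1 - δ)) / 2 := by gcongr
    _ = _ := by ring

section
variable {ι : Type} [Fintype ι] [DecidableEq ι] [Nonempty ι]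

theorem well_of_equiE {r : ℕ} {s : ℕ → Finset ℕ} {x : ℕ → Fin r → ℝ} {δ : ℝ} (hδ : 0 < δ)
    (hE : Equi s x δ) (hs : ∃ N₀ : ℕ, ∀ N : ℕ, N₀ ≤ N → (N : ℝ) ^ (1 - δ / 2) ≤ (s N).card)
    (e : ι ≃ Fin r) : ∃ N₀ : ℕ, ∀ N : ℕ, N₀ ≤ N → ∀ H : ℕ,
      (H : ℝ) ≤ (N : ℝ) ^ (δ / (4 * (r + 1))) → Well (s N) (fun n i => ⌊x n (e i)⌋) H := by
  obtain ⟨N₁, h₁⟩ := hE
  obtain ⟨N₂, h₂⟩ := hs
  have hr : Fintype.card ι = r := by rw [Fintype.card_congr e, Fintype.card_fin]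
  set κ : ℝ := δ / (4 * (r + 1)) with hκ
  have hκ0 : 0 < κ := by positivity
  have hκδ : (r + 1) * κ = δ / 4 := by rw [hκ]; field_simp
  have hr0 : (0 : ℝ) ≤ r := by positivity
  have hκδ' : κ ≤ δ / 4 := by nlinarith
  have hev : ∀ᶠ Z : ℝ in atTop, 1 ≤ Z ∧ 3 * Z ^ κ ≤ Z ^ δ ∧
      3 ^ (r + 1) * Z ^ (δ / 4) ≤ Z ^ (δ / 2) := by
    filter_upwards [eventually_ge_atTop (1 : ℝ), ev_pow κ δ 3 (by linarith),
      ev_pow (δ / 4) (δ / 2) (3 ^ (r + 1)) (by linarith)] with Z h1 h2 h3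
    exact ⟨h1, h2, h3⟩
  obtain ⟨Z₀, hZ₀⟩ := eventually_atTop.mp hev
  refine ⟨⌈Z₀⌉₊ + N₁ + N₂ + 1, fun N hN H hH => ?_⟩
  have hNZ : Z₀ ≤ N := (Nat.le_ceil Z₀).trans (by exact_mod_cast (by omega : ⌈Z₀⌉₊ ≤ N))
  obtain ⟨hN1, h3κ, h3r⟩ := hZ₀ N hNZ
  have hN0 : (0 : ℝ) < N := by linarith
  have hcard := h₂ N (by omega)
  have hcpos : (0 : ℝ) < (s N).card := lt_of_lt_of_le (by positivity) hcard
  refine ⟨by exact_mod_cast hcpos, fun q hq1 hq ρ => ?_⟩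
  have h2H : 2 * (H : ℝ) + 1 ≤ 3 * (N : ℝ) ^ κ := by
    have : (1 : ℝ) ≤ (N : ℝ) ^ κ := Real.one_le_rpow hN1 hκ0.le
    linarith
  have hqR : (q : ℝ) ≤ 2 * (H : ℝ) + 1 := by exact_mod_cast hq
  have hqδ : (q : ℝ) ≤ (N : ℝ) ^ δ := by linarith
  have hq0 : (0 : ℝ) < q := by exact_mod_cast hq1
  have : NeZero q := ⟨by omega⟩
  have h4 := h₁ N (by omega) q hq1 hqδ (fun j => ((ρ (e.symm j)).val : ℤ))
  have ecls : cls (s N) x q (fun j => ((ρ (e.symm j)).val : ℤ)) =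
      {n ∈ s N | red q (fun i => ⌊x n (e i)⌋) = ρ} := by
    ext n
    unfold cls
    simp only [Finset.mem_filter, and_congr_right_iff]
    intro _
    have key : ∀ j, ((q : ℤ) ∣ ⌊x n j⌋ - ((ρ (e.symm j)).val : ℤ)) ↔
        ((⌊x n j⌋ : ℤ) : ZMod q) = ρ (e.symm j) := by
      intro j
      have hc : (((ρ (e.symm j)).val : ℤ) : ZMod q) = ρ (e.symm j) := by
        rw [Int.cast_natCast, ZMod.natCast_zmod_val]
      rw [← ZMod.intCast_eq_intCast_iff_dvd_sub, hc]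
      exact eq_comm
    constructor
    · intro h
      funext i
      have := (key (e i)).mp (h (e i))
      simpa [red] using this
    · intro h j
      rw [key]
      have := congrFun h (e.symm j)
      simpa [red] using this
  rw [ecls] at h4
  rw [hr]
  have h5 : |((#{n ∈ s N | red q (fun i => ⌊x n (e i)⌋) = ρ} : ℕ) : ℝ) / (s N).card -
      1 / (q : ℝ) ^ r| ≤ (N : ℝ) ^ (1 - δ) / (s N).card := by
    have e1 : ((#{n ∈ s N | red q (fun i => ⌊x n (e i)⌋) = ρ} : ℕ) : ℝ) / (s N).card -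
        1 / (q : ℝ) ^ r = (((#{n ∈ s N | red q (fun i => ⌊x n (e i)⌋) = ρ} : ℕ) : ℝ) -
          (s N).card / (q : ℝ) ^ r) / (s N).card := by
      field_simp
    rw [e1, abs_div, abs_of_pos hcpos]
    gcongr
  refine h5.trans ?_
  have h6 : (N : ℝ) ^ (1 - δ) / (s N).card ≤ 1 / (N : ℝ) ^ (δ / 2) := by
    rw [div_le_div_iff₀ hcpos (by positivity), one_mul, ← Real.rpow_add hN0]
    have : 1 - δ + δ / 2 = 1 - δ / 2 := by ring
    rw [this]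
    exact hcard
  refine h6.trans ?_
  have h7 : (2 * (H : ℝ) + 1) * (q : ℝ) ^ r ≤ (N : ℝ) ^ (δ / 2) := by
    calc (2 * (H : ℝ) + 1) * (q : ℝ) ^ r ≤ (3 * (N : ℝ) ^ κ) * (3 * (N : ℝ) ^ κ) ^ r := by
          gcongr
          linarith
      _ = 3 ^ (r + 1) * (N : ℝ) ^ ((r + 1) * κ) := by
          rw [← pow_succ', mul_pow, ← Real.rpow_natCast ((N : ℝ) ^ κ), ← Real.rpow_mul hN0.le]
          push_cast
          ring_nf
      _ ≤ _ := by rw [hκδ]; exact h3r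
  rw [one_div_mul_one_div]
  exact one_div_le_one_div_of_le (by positivity) h7

end

end Pool.Agent.N54.ME
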