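import Pool.Agent.N54.ME.Blk

set_option autoImplicit false

/-! Metric theorems for vectors of sequences: lines and product measures. -/

namespace Pool.Agent.N54.ME

open Finset Filter MeasureTheory
open Pool.Agent.TH668.Met
open Pool.Agent.H469R2.NK (e norm_e e_add conj_e)

open scoped ENNReal

/-- a set that meets all the lines in one coordinate direction in null sets is null -/
lemma null_of_lines {ι : Type} [Fintype ι] [DecidableEq ι] (i : ι) (E : Set (ι → ℝ))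
    (hE : MeasurableSet E)
    (h : ∀ α : ι → ℝ, volume {t : ℝ | Function.update α i t ∈ E} = 0) : volume E = 0 := by
  have hm : Measurable (E.indicator (1 : (ι → ℝ) → ℝ≥0∞)) := measurable_one.indicator hE
  have h1 : volume E = ∫⁻ x, E.indicator (1 : (ι → ℝ) → ℝ≥0∞) x ∂(Measure.pi fun _ => volume) := by
    rw [lintegral_indicator_one hE]
    rfl
  rw [h1, lintegral_eq_lmarginal_univ (fun _ => (0 : ℝ)), lmarginal_erase' _ hm (mem_univ i)]
  have h2 : (fun x : ι → ℝ => ∫⁻ t, E.indicator (1 : (ι → ℝ) → ℝ≥0∞) (Function.update x i t)) =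
      fun _ => 0 := by
    funext x
    have h3 : (fun t : ℝ => E.indicator (1 : (ι → ℝ) → ℝ≥0∞) (Function.update x i t)) =
        {t : ℝ | Function.update x i t ∈ E}.indicator 1 := by
      funext t
      by_cases ht : Function.update x i t ∈ E
      · rw [Set.indicator_of_mem ht, Set.indicator_of_mem (by exact ht)]
        rfl
      · rw [Set.indicator_of_notMem ht, Set.indicator_of_notMem (by exact ht)]
    rw [h3, lintegral_indicator_one]
    · exact h x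
    · exact (measurable_update x) hE
  rw [h2]
  simp [lmarginal]

/-- a summable sequence of mean values -/
lemma ae_ev_sq (μ : Measure ℝ) (G : ℕ → ℝ → ℝ) (hG : ∀ j, Integrable (G j) μ)
    (h0 : ∀ j x, 0 ≤ G j x) (c : ℝ) (hc : 0 ≤ c) (J : ℕ)
    (hb : ∀ j, J ≤ j → ∫ x, G j x ∂μ ≤ c * (1 / (j : ℝ) ^ 2)) :
    ∀ᵐ x ∂μ, ∀ᶠ j in atTop, G j x ≤ 1 := by
  have h1 : ∫⁻ x, ∑' j, ENNReal.ofReal (G (j + J) x) ∂μ ≠ ⊤ := by
    rw [lintegral_tsum fun j => (hG (j + J)).aestronglyMeasurable.aemeasurable.ennreal_ofReal]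
    have h2 : ∀ j, ∫⁻ x, ENNReal.ofReal (G (j + J) x) ∂μ ≤
        ENNReal.ofReal (c * (1 / ((j + J : ℕ) : ℝ) ^ 2)) := by
      intro j
      rw [← ofReal_integral_eq_lintegral_ofReal (hG (j + J)) (Eventually.of_forall (h0 (j + J)))]
      exact ENNReal.ofReal_le_ofReal (hb (j + J) (by omega))
    have h3 : Summable fun j : ℕ => c * (1 / ((j + J : ℕ) : ℝ) ^ 2) := by
      have h4 : Summable fun j : ℕ => 1 / (j : ℝ) ^ 2 :=
        Real.summable_one_div_nat_pow.mpr (by norm_num)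
      exact ((summable_nat_add_iff J).mpr h4).mul_left c
    refine ne_top_of_le_ne_top ?_ (ENNReal.tsum_le_tsum h2)
    rw [← ENNReal.ofReal_tsum_of_nonneg (fun j => by positivity) h3]
    exact ENNReal.ofReal_ne_top
  have h5 : AEMeasurable (fun x => ∑' j, ENNReal.ofReal (G (j + J) x)) μ :=
    AEMeasurable.ennreal_tsum fun j => (hG (j + J)).aestronglyMeasurable.aemeasurable.ennreal_ofReal
  filter_upwards [ae_lt_top' h5 h1] with x hx
  have h6 := ENNReal.tendsto_atTop_zero_of_tsum_ne_top hx.ne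
  have h7 : ∀ᶠ j in atTop, ENNReal.ofReal (G (j + J) x) < 1 :=
    h6.eventually (gt_mem_nhds (by norm_num))
  obtain ⟨j₀, hj₀⟩ := eventually_atTop.mp h7
  refine eventually_atTop.mpr ⟨j₀ + J, fun j hj => ?_⟩
  have h8 := hj₀ (j - J) (by omega)
  rw [Nat.sub_add_cancel (by omega)] at h8
  have h9 := ENNReal.ofReal_lt_one.mp h8
  exact h9.le

/-- the exponential sums over the blocks from `k ^ M` to `2 k ^ M` on a line, with an arbitrary
perturbation for each of the (few) frequencies `(h, q)` -/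
lemma line (P : ℕ → Prop) [DecidablePred P] {A : Type} (M r : ℕ) (u v ρ : ℝ) (huv : u ≤ v) (n₀ : ℕ) (F F' F'' : ℕ → ℝ → ℝ)
    (hF : Fam u v ρ n₀ F F' F'') (hρ : 0 < ρ) (hρ1 : ρ ≤ 1) (hM : 4 * ((r : ℝ) + 6) ≤ ρ * M)
    (HB : ℕ → Finset A) (hHB : ∀ k, 1 ≤ k → ((HB k).card : ℝ) ≤ 3 ^ r * (k : ℝ) ^ r)
    (θ : A → ℕ → ℝ) (hθ : ∀ k, 1 ≤ k → ∀ h ∈ HB k, ∀ q, 1 ≤ q → q ≤ k → 1 / (k : ℝ) ≤ θ h q)
    (b : A → ℕ → ℕ → ℝ) :
    ∀ᵐ t ∂(volume.restrict (Set.Ioc u v)), ∃ k₀ : ℕ, ∀ k : ℕ, k₀ ≤ k → ∀ h ∈ HB k,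
      ∀ q : ℕ, 1 ≤ q → q ≤ k →
        ‖∑ n ∈ (Finset.Ioc (k ^ M) (2 * k ^ M)).filter P, e (θ h q * F n t + b h q n)‖ * k ≤ (k : ℝ) ^ M := by
  have hcont : ∀ n, Continuous (F n) := fun n =>
    continuous_iff_continuousAt.2 fun x => (hF.d1 n x).continuousAt
  have hr0 : (0 : ℝ) ≤ r := Nat.cast_nonneg r
  have hM0 : 0 < M := by
    rcases Nat.eq_zero_or_pos M with h | h
    · rw [h] at hM
      push_cast at hM
      linarith
    · exact h
  have hMR : (0 : ℝ) < M := by exact_mod_cast hM0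
  have hM8 : 8 / (M : ℝ) ≤ ρ := by
    rw [div_le_iff₀ hMR]
    linarith
  obtain ⟨N₁, hN₁⟩ := eventually_atTop.mp
    (block_b P u v ρ huv n₀ F F' F'' hF hρ hρ1 (ρ / 8) le_rfl)
  set S : ℕ → A → ℕ → ℝ → ℝ := fun k h q t =>
    ‖∑ n ∈ (Finset.Ioc (k ^ M) (2 * k ^ M)).filter P, e (θ h q * F n t + b h q n)‖ ^ 2 with hS
  set G : ℕ → ℝ → ℝ := fun k t =>
    ∑ h ∈ HB k, ∑ q ∈ Finset.Icc 1 k, S k h q t * ((k : ℝ) ^ 2 / ((k : ℝ) ^ M) ^ 2) with hG
  have hScont : ∀ k h q, Continuous (S k h q) := by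
    intro k h q
    simp only [hS]
    refine Continuous.pow (Continuous.norm ?_) 2
    exact continuous_finsetSum _ fun n _ => continuous_e.comp
      ((continuous_const.mul (hcont n)).add continuous_const)
  have hSbd : ∀ k h q t, ‖S k h q t‖ ≤ (((Finset.Ioc (k ^ M) (2 * k ^ M)).filter P).card : ℝ) ^ 2 := by
    intro k h q t
    simp only [hS]
    rw [norm_pow, norm_norm]
    refine pow_le_pow_left₀ (norm_nonneg _) ((norm_sum_le _ _).trans (le_of_eq ?_)) 2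
    simp only [norm_e]
    rw [sum_const, nsmul_eq_mul, mul_one]
  have hSint : ∀ k h q, Integrable (S k h q) (volume.restrict (Set.Ioc u v)) := fun k h q =>
    Integrable.of_bound (hScont k h q).aestronglyMeasurable _
      (Eventually.of_forall fun t => hSbd k h q t)
  have hGint : ∀ k, Integrable (G k) (volume.restrict (Set.Ioc u v)) := by
    intro k
    simp only [hG]
    exact integrable_finsetSum _ fun h _ => integrable_finsetSum _ fun q _ =>
      (hSint k h q).mul_const _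
  have hS0 : ∀ k h q t, 0 ≤ S k h q t := fun k h q t => by simp only [hS]; positivity
  have hG0 : ∀ k t, 0 ≤ G k t := fun k t =>
    sum_nonneg fun h _ => sum_nonneg fun q _ => mul_nonneg (hS0 k h q t) (by positivity)
  set C : ℝ := 4 * (v - u) + 1 with hC
  have hC0 : 0 ≤ C := by rw [hC]; linarith
  have hae := ae_ev_sq _ G hGint hG0 (3 ^ r * C) (by positivity) (N₁ + 1) (by
    intro k hk
    have hk1 : 1 ≤ k := by omega
    have hkR : (1 : ℝ) ≤ k := by exact_mod_cast hk1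
    have hk0 : (0 : ℝ) < k := by linarith
    set N : ℕ := k ^ M with hN
    have hNk : N₁ ≤ N := by
      have h1 : k ≤ k ^ M := Nat.le_self_pow hM0.ne' k
      omega
    have hNr : (N : ℝ) = (k : ℝ) ^ M := by rw [hN]; push_cast; rfl
    have hN0 : (0 : ℝ) < N := by rw [hNr]; positivity
    have hb : ∀ h ∈ HB k, ∀ q ∈ Finset.Icc 1 k,
        ∫ t, S k h q t * ((k : ℝ) ^ 2 / ((k : ℝ) ^ M) ^ 2) ∂(volume.restrict (Set.Ioc u v)) ≤
          C * (1 / (k : ℝ) ^ (r + 3)) := by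
      intro h hh q hq
      rw [Finset.mem_Icc] at hq
      rw [integral_mul_const]
      have h1 : (N : ℝ) ^ (-(ρ / 8)) ≤ θ h q := by
        refine le_trans ?_ (hθ k hk1 h hh q hq.1 hq.2)
        rw [hNr, ← Real.rpow_natCast, ← Real.rpow_mul hk0.le]
        calc (k : ℝ) ^ ((M : ℝ) * -(ρ / 8)) ≤ (k : ℝ) ^ (-1 : ℝ) := by
              apply Real.rpow_le_rpow_of_exponent_le hkR
              rw [div_le_iff₀ hMR] at hM8
              linarith
          _ = 1 / (k : ℝ) := by rw [Real.rpow_neg_one, one_div]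
      have h2 := hN₁ N hNk (θ h q) (b h q) h1
      have h3 : (N : ℝ) ^ (2 - ρ / 4) * ((k : ℝ) ^ 2 / ((k : ℝ) ^ M) ^ 2) ≤
          1 / (k : ℝ) ^ (r + 3) := by
        rw [hNr, ← Real.rpow_natCast (k : ℝ) M, ← Real.rpow_mul hk0.le,
          ← Real.rpow_natCast ((k : ℝ) ^ (M : ℝ)) 2, ← Real.rpow_mul hk0.le,
          ← Real.rpow_natCast (k : ℝ) 2, ← Real.rpow_sub hk0, ← Real.rpow_add hk0,
          ← Real.rpow_natCast (k : ℝ) (r + 3), one_div, ← Real.rpow_neg hk0.le]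
        apply Real.rpow_le_rpow_of_exponent_le hkR
        push_cast
        nlinarith
      calc (∫ t, S k h q t ∂(volume.restrict (Set.Ioc u v))) * ((k : ℝ) ^ 2 / ((k : ℝ) ^ M) ^ 2)
          ≤ (C * (N : ℝ) ^ (2 - ρ / 4)) * ((k : ℝ) ^ 2 / ((k : ℝ) ^ M) ^ 2) :=
            mul_le_mul_of_nonneg_right h2 (by positivity)
        _ = C * ((N : ℝ) ^ (2 - ρ / 4) * ((k : ℝ) ^ 2 / ((k : ℝ) ^ M) ^ 2)) := by ring
        _ ≤ _ := mul_le_mul_of_nonneg_left h3 hC0
    have e1 : ∫ t, G k t ∂(volume.restrict (Set.Ioc u v)) = ∑ h ∈ HB k, ∑ q ∈ Finset.Icc 1 k,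
        ∫ t, S k h q t * ((k : ℝ) ^ 2 / ((k : ℝ) ^ M) ^ 2) ∂(volume.restrict (Set.Ioc u v)) := by
      simp only [hG]
      rw [integral_finsetSum _ fun h _ => integrable_finsetSum _ fun q _ =>
        (hSint k h q).mul_const _]
      refine sum_congr rfl fun h _ => ?_
      rw [integral_finsetSum _ fun q _ => (hSint k h q).mul_const _]
    rw [e1]
    calc ∑ h ∈ HB k, ∑ q ∈ Finset.Icc 1 k,
        ∫ t, S k h q t * ((k : ℝ) ^ 2 / ((k : ℝ) ^ M) ^ 2) ∂(volume.restrict (Set.Ioc u v))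
        ≤ ∑ _h ∈ HB k, ((k : ℝ) * (C * (1 / (k : ℝ) ^ (r + 3)))) := by
          refine sum_le_sum fun h hh => ?_
          refine (sum_le_sum fun q hq => hb h hh q hq).trans (le_of_eq ?_)
          rw [sum_const, nsmul_eq_mul, Nat.card_Icc, Nat.add_sub_cancel]
      _ = ((HB k).card : ℝ) * ((k : ℝ) * (C * (1 / (k : ℝ) ^ (r + 3)))) := by
          rw [sum_const, nsmul_eq_mul]
      _ ≤ (3 ^ r * (k : ℝ) ^ r) * ((k : ℝ) * (C * (1 / (k : ℝ) ^ (r + 3)))) :=
          mul_le_mul_of_nonneg_right (hHB k hk1) (by positivity)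
      _ = 3 ^ r * C * (1 / (k : ℝ) ^ 2) := by
          rw [pow_add]
          field_simp)
  filter_upwards [hae] with t ht
  obtain ⟨k₀, hk₀⟩ := eventually_atTop.mp ht
  refine ⟨k₀ + 1, fun k hk h hh q hq1 hqk => ?_⟩
  have hk1 : 1 ≤ k := by omega
  have hk0 : (0 : ℝ) < k := by exact_mod_cast hk1
  have h1 : S k h q t * ((k : ℝ) ^ 2 / ((k : ℝ) ^ M) ^ 2) ≤ 1 := by
    refine le_trans ?_ (hk₀ k (by omega))
    have hnn : ∀ h q, 0 ≤ S k h q t * ((k : ℝ) ^ 2 / ((k : ℝ) ^ M) ^ 2) := fun h q =>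
      mul_nonneg (hS0 k h q t) (by positivity)
    calc S k h q t * ((k : ℝ) ^ 2 / ((k : ℝ) ^ M) ^ 2) ≤
        ∑ q ∈ Finset.Icc 1 k, S k h q t * ((k : ℝ) ^ 2 / ((k : ℝ) ^ M) ^ 2) :=
          single_le_sum (f := fun q => S k h q t * ((k : ℝ) ^ 2 / ((k : ℝ) ^ M) ^ 2))
            (fun q _ => hnn h q) (Finset.mem_Icc.2 ⟨hq1, hqk⟩)
      _ ≤ G k t := single_le_sum (f := fun h => ∑ q ∈ Finset.Icc 1 k,
            S k h q t * ((k : ℝ) ^ 2 / ((k : ℝ) ^ M) ^ 2))
            (fun h _ => sum_nonneg fun q _ => hnn h q) hh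
  rw [← mul_div_assoc, div_le_one (by positivity), hS, ← mul_pow] at h1
  exact (pow_le_pow_iff_left₀ (by positivity) (by positivity) (by norm_num)).mp h1

end Pool.Agent.N54.ME
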