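import Pool.Agent.N54.ME.Expl

set_option autoImplicit false

/-! Almost all members of families of vectors of sequences are well distributed. -/

namespace Pool.Agent.N54.ME

open Finset Filter MeasureTheory
open Pool.Agent.TH668.Met
open Pool.Agent.H469R2.NK (e norm_e e_add conj_e)
open Pool.Agent.N666.TM Pool.Agent.Y722.HS

section
variable {ι : Type} [Fintype ι] [DecidableEq ι]

/-- the exponential sum over the block from `k ^ M` to `2 k ^ M` -/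
noncomputable def SS (P : ℕ → Prop) [DecidablePred P] (F : ι → ℕ → ℝ → ℝ) (M k : ℕ) (h : ι → ℤ) (q : ℕ) (α : ι → ℝ) : ℂ :=
  ∑ n ∈ (Finset.Ioc (k ^ M) (2 * k ^ M)).filter P, e (∑ j, (h j : ℝ) * (F j n (α j) / q))

/-- the sums with `0 < h i` are small -/
def GoodAt (P : ℕ → Prop) [DecidablePred P] (F : ι → ℕ → ℝ → ℝ) (M : ℕ) (i : ι) (α : ι → ℝ) : Prop :=
  ∃ k₀ : ℕ, ∀ k : ℕ, k₀ ≤ k → ∀ h : ι → ℤ, 0 < h i → (∀ j, |h j| ≤ k) → ∀ q : ℕ, 1 ≤ q → q ≤ k →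
    ‖SS P F M k h q α‖ * k ≤ (k : ℝ) ^ M

lemma SS_cont (P : ℕ → Prop) [DecidablePred P] (F : ι → ℕ → ℝ → ℝ) (hF : ∀ j n, Continuous (F j n)) (M k : ℕ) (h : ι → ℤ) (q : ℕ) :
    Continuous (SS P F M k h q) := by
  unfold SS
  refine continuous_finsetSum _ fun n _ => continuous_e.comp (continuous_finsetSum _ fun j _ => ?_)
  exact continuous_const.mul (((hF j n).comp (continuous_apply j)).div_const _)

lemma good_meas (P : ℕ → Prop) [DecidablePred P] (F : ι → ℕ → ℝ → ℝ) (hF : ∀ j n, Continuous (F j n)) (M : ℕ) (i : ι) :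
    MeasurableSet {α | GoodAt P F M i α} := by
  unfold GoodAt
  refine measurableSet_setOf.2 ?_
  refine Measurable.exists fun k₀ => Measurable.forall fun k => Measurable.imp measurable_const ?_
  refine Measurable.forall fun h => Measurable.imp measurable_const ?_
  refine Measurable.imp measurable_const ?_
  refine Measurable.forall fun q => Measurable.imp measurable_const ?_
  refine Measurable.imp measurable_const ?_
  refine measurableSet_setOf.1 ?_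
  exact measurableSet_le (((SS_cont P F hF M k h q).norm.mul continuous_const).measurable)
    measurable_const

lemma ae_good (P : ℕ → Prop) [DecidablePred P] (M : ℕ) (u v : ι → ℝ) (huv : ∀ j, u j ≤ v j) (ρ : ℝ) (n₀ : ℕ)
    (F F' F'' : ι → ℕ → ℝ → ℝ) (hF : ∀ j, Fam (u j) (v j) ρ n₀ (F j) (F' j) (F'' j)) (hρ : 0 < ρ)
    (hρ1 : ρ ≤ 1) (hM : 4 * ((Fintype.card ι : ℝ) + 6) ≤ ρ * M) (i : ι) :
    ∀ᵐ α : ι → ℝ, α i ∈ Set.Ioc (u i) (v i) → GoodAt P F M i α := by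
  have hcont : ∀ j n, Continuous (F j n) := fun j n =>
    continuous_iff_continuousAt.2 fun x => ((hF j).d1 n x).continuousAt
  have hmE : MeasurableSet {α : ι → ℝ | α i ∈ Set.Ioc (u i) (v i) ∧ ¬ GoodAt P F M i α} := by
    refine MeasurableSet.inter ?_ (good_meas P F hcont M i).compl
    exact (measurable_pi_apply i) measurableSet_Ioc
  rw [ae_iff]
  have hset : {α : ι → ℝ | ¬ (α i ∈ Set.Ioc (u i) (v i) → GoodAt P F M i α)} =
      {α : ι → ℝ | α i ∈ Set.Ioc (u i) (v i) ∧ ¬ GoodAt P F M i α} := by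
    ext α
    simp only [Set.mem_ofPred_eq, Classical.not_imp]
  rw [hset]
  refine null_of_lines i _ hmE fun α₀ => ?_
  have hl := line P M (Fintype.card ι) (u i) (v i) ρ (huv i) n₀ (F i) (F' i) (F'' i) (hF i) hρ hρ1 hM
    (fun k => (Fintype.piFinset fun _ : ι => Finset.Icc (-(k : ℤ)) k).filter fun h => 0 < h i)
    (fun k hk => by
      have hkR : (1 : ℝ) ≤ k := by exact_mod_cast hk
      have h1 : ((Fintype.piFinset fun _ : ι => Finset.Icc (-(k : ℤ)) k).filter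
          fun h => 0 < h i).card ≤ (2 * k + 1) ^ Fintype.card ι := by
        refine (card_filter_le _ _).trans (le_of_eq ?_)
        rw [Fintype.card_piFinset, prod_const, Int.card_Icc, card_univ]
        congr 1
        omega
      calc (((Fintype.piFinset fun _ : ι => Finset.Icc (-(k : ℤ)) k).filter
          fun h => 0 < h i).card : ℝ) ≤ ((2 * k + 1 : ℕ) : ℝ) ^ Fintype.card ι := by exact_mod_cast h1
        _ ≤ (3 * (k : ℝ)) ^ Fintype.card ι := by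
            apply pow_le_pow_left₀ (by positivity)
            push_cast
            linarith
        _ = _ := mul_pow _ _ _)
    (fun h q => (h i : ℝ) / q) (fun k hk h hh q hq1 hqk => by
      rw [mem_filter] at hh
      have h1 : (1 : ℝ) ≤ h i := by exact_mod_cast hh.2
      have hq0 : (0 : ℝ) < q := by exact_mod_cast hq1
      have hqk' : (q : ℝ) ≤ k := by exact_mod_cast hqk
      calc 1 / (k : ℝ) ≤ 1 / (q : ℝ) := by gcongr
        _ ≤ _ := by gcongr)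
    (fun h q n => ∑ j ∈ univ.erase i, (h j : ℝ) * (F j n (α₀ j) / q))
  rw [ae_restrict_iff' measurableSet_Ioc, ae_iff] at hl
  refine measure_mono_null ?_ hl
  rintro t ⟨ht1, ht2⟩ hcon
  rw [Function.update_self] at ht1
  apply ht2
  obtain ⟨k₀, hk₀⟩ := hcon ht1
  refine ⟨k₀, fun k hk h hi hh q hq1 hqk => ?_⟩
  have h1 := hk₀ k hk h (by
    rw [mem_filter, Fintype.mem_piFinset]
    exact ⟨fun j => Finset.mem_Icc.2 (abs_le.1 (hh j)), hi⟩) q hq1 hqk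
  refine le_trans (le_of_eq ?_) h1
  unfold SS
  congr 2
  refine sum_congr rfl fun n _ => ?_
  congr 1
  rw [← add_sum_erase _ _ (mem_univ i), Function.update_self]
  congr 1
  · ring
  · refine sum_congr rfl fun j hj => ?_
    rw [Function.update_of_ne (ne_of_mem_erase hj)]

lemma SS_neg (P : ℕ → Prop) [DecidablePred P] (F : ι → ℕ → ℝ → ℝ) (M k : ℕ) (h : ι → ℤ) (q : ℕ) (α : ι → ℝ) :
    ‖SS P F M k (-h) q α‖ = ‖SS P F M k h q α‖ := by
  have : SS P F M k (-h) q α = (starRingEnd ℂ) (SS P F M k h q α) := by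
    unfold SS
    rw [map_sum]
    refine sum_congr rfl fun n _ => ?_
    rw [conj_e]
    congr 1
    rw [← sum_neg_distrib]
    refine sum_congr rfl fun j _ => ?_
    simp
  rw [this, Complex.norm_conj]

lemma ae_all (P : ℕ → Prop) [DecidablePred P] (M : ℕ) (u v : ι → ℝ) (huv : ∀ j, u j ≤ v j) (ρ : ℝ) (n₀ : ℕ)
    (F F' F'' : ι → ℕ → ℝ → ℝ) (hF : ∀ j, Fam (u j) (v j) ρ n₀ (F j) (F' j) (F'' j)) (hρ : 0 < ρ)
    (hρ1 : ρ ≤ 1) (hM : 4 * ((Fintype.card ι : ℝ) + 6) ≤ ρ * M) :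
    ∀ᵐ α : ι → ℝ, (∀ i, α i ∈ Set.Ioc (u i) (v i)) → ∃ k₀ : ℕ, ∀ k : ℕ, k₀ ≤ k → ∀ h : ι → ℤ,
      h ≠ 0 → (∀ j, |h j| ≤ k) → ∀ q : ℕ, 1 ≤ q → q ≤ k →
        ‖SS P F M k h q α‖ * k ≤ (k : ℝ) ^ M := by
  have h1 : ∀ᵐ α : ι → ℝ, ∀ i, α i ∈ Set.Ioc (u i) (v i) → GoodAt P F M i α :=
    ae_all_iff.2 fun i => ae_good P M u v huv ρ n₀ F F' F'' hF hρ hρ1 hM i
  filter_upwards [h1] with α hα hu
  choose k₀ hk₀ using fun i => hα i (hu i)
  refine ⟨∑ i, k₀ i, fun k hk h hh hhk q hq1 hqk => ?_⟩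
  obtain ⟨i, hi⟩ := Function.ne_iff.1 hh
  have hki : k₀ i ≤ k := (single_le_sum (f := k₀) (fun _ _ => Nat.zero_le _) (mem_univ i)).trans hk
  rcases lt_or_gt_of_ne hi with h2 | h2
  · rw [← SS_neg]
    refine hk₀ i k hki (-h) ?_ ?_ q hq1 hqk
    · rw [Pi.neg_apply]
      have : h i < 0 := h2
      omega
    · intro j
      rw [Pi.neg_apply, abs_neg]
      exact hhk j
  · exact hk₀ i k hki h h2 hhk q hq1 hqk

end

/-- comparison of sums over two dyadic blocks -/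
lemma interp (f : ℕ → ℂ) (hf : ∀ n, ‖f n‖ ≤ 1) (K N : ℕ) (hKN : K ≤ N) :
    ‖∑ n ∈ Finset.Ioc N (2 * N), f n‖ ≤ ‖∑ n ∈ Finset.Ioc K (2 * K), f n‖ + 3 * ((N : ℝ) - K) := by
  have e1 : ∑ n ∈ Finset.Ioc K (2 * N), f n =
      ∑ n ∈ Finset.Ioc K N, f n + ∑ n ∈ Finset.Ioc N (2 * N), f n :=
    (sum_Ioc_consecutive f hKN (by omega)).symm
  have e2 : ∑ n ∈ Finset.Ioc K (2 * N), f n =
      ∑ n ∈ Finset.Ioc K (2 * K), f n + ∑ n ∈ Finset.Ioc (2 * K) (2 * N), f n :=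
    (sum_Ioc_consecutive f (by omega) (by omega)).symm
  have hb : ∀ A B : ℕ, A ≤ B → ‖∑ n ∈ Finset.Ioc A B, f n‖ ≤ (B : ℝ) - A := by
    intro A B hAB
    refine (norm_sum_le _ _).trans ((sum_le_sum fun n _ => hf n).trans (le_of_eq ?_))
    rw [sum_const, nsmul_eq_mul, mul_one, Nat.card_Ioc, Nat.cast_sub hAB]
  have e3 : ∑ n ∈ Finset.Ioc N (2 * N), f n = ∑ n ∈ Finset.Ioc K (2 * K), f n +
      ∑ n ∈ Finset.Ioc (2 * K) (2 * N), f n - ∑ n ∈ Finset.Ioc K N, f n := by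
    rw [← e2, e1]
    ring
  rw [e3]
  refine (norm_sub_le _ _).trans ?_
  have h1 := norm_add_le (∑ n ∈ Finset.Ioc K (2 * K), f n)
    (∑ n ∈ Finset.Ioc (2 * K) (2 * N), f n)
  have h2 := hb (2 * K) (2 * N) (by omega)
  have h3 := hb K N hKN
  push_cast at h2
  linarith

/-- the difference of consecutive powers -/
lemma pow_succ_sub (M k : ℕ) (hM : 1 ≤ M) :
    ((k : ℝ) + 1) ^ M - (k : ℝ) ^ M ≤ M * ((k : ℝ) + 1) ^ (M - 1) := by
  have hk : (0 : ℝ) < (k : ℝ) + 1 := by positivity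
  have h1 := one_add_mul_le_pow (a := -(1 / ((k : ℝ) + 1))) (by
    have : 1 / ((k : ℝ) + 1) ≤ 1 := by
      rw [div_le_one hk]
      have : (0 : ℝ) ≤ k := Nat.cast_nonneg k
      linarith
    linarith) M
  have h2 : 1 + -(1 / ((k : ℝ) + 1)) = k / ((k : ℝ) + 1) := by
    field_simp
    ring
  rw [h2, div_pow, le_div_iff₀ (by positivity)] at h1
  have h3 : ((k : ℝ) + 1) ^ M = ((k : ℝ) + 1) ^ (M - 1) * ((k : ℝ) + 1) := by
    rw [← pow_succ]
    congr 1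
    omega
  have h4 : (1 + (M : ℝ) * -(1 / ((k : ℝ) + 1))) * ((k : ℝ) + 1) ^ M =
      ((k : ℝ) + 1) ^ M - M * ((k : ℝ) + 1) ^ (M - 1) := by
    rw [h3]
    field_simp
    ring
  linarith

section
variable {ι : Type} [Fintype ι] [DecidableEq ι]

lemma small_of (P : ℕ → Prop) [DecidablePred P] (M : ℕ) (hM : 1 ≤ M) (F : ι → ℕ → ℝ → ℝ) (α : ι → ℝ) {r : ℕ} (e' : ι ≃ Fin r)
    (h : ∃ k₀ : ℕ, ∀ k : ℕ, k₀ ≤ k → ∀ h : ι → ℤ,
      h ≠ 0 → (∀ j, |h j| ≤ k) → ∀ q : ℕ, 1 ≤ q → q ≤ k →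
        ‖SS P F M k h q α‖ * k ≤ (k : ℝ) ^ M) :
    SmallE (r := r) (1 / (2 * M)) (fun N => (Finset.Ioc N (2 * N)).filter P)
      (fun n j => F (e'.symm j) n (α (e'.symm j))) := by
  obtain ⟨k₀, hk₀⟩ := h
  have hMR : (1 : ℝ) ≤ M := by exact_mod_cast hM
  have hM0 : (0 : ℝ) < M := by linarith
  set C : ℝ := 1 + 3 * M * 2 ^ (M - 1) with hC
  have hC0 : 0 < C := by positivity
  have hev : ∀ᶠ N : ℕ in atTop, C + 2 + k₀ ≤ (N : ℝ) ^ (1 / (2 * (M : ℝ))) := by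
    have h1 : Tendsto (fun N : ℕ => (N : ℝ) ^ (1 / (2 * (M : ℝ)))) atTop atTop :=
      (tendsto_rpow_atTop (by positivity)).comp tendsto_natCast_atTop_atTop
    exact h1.eventually_ge_atTop _
  obtain ⟨N₁, hN₁⟩ := eventually_atTop.mp hev
  refine ⟨N₁ + 1, fun N hN h hh hhN q hq1 hqN => ?_⟩
  have hN1 : 1 ≤ N := by omega
  have hNR : (1 : ℝ) ≤ N := by exact_mod_cast hN1
  have hN0 : (0 : ℝ) < N := by linarith
  set y : ℝ := (N : ℝ) ^ (1 / (2 * (M : ℝ))) with hy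
  have hyC : C + 2 + k₀ ≤ y := hN₁ N (by omega)
  have hk00 : (0 : ℝ) ≤ k₀ := Nat.cast_nonneg _
  have hy2 : 2 ≤ y := by linarith
  have hyy : (N : ℝ) ^ (1 / (M : ℝ)) = y * y := by
    rw [hy, ← Real.rpow_add hN0]
    congr 1
    field_simp
    norm_num
  set k : ℕ := ⌊(N : ℝ) ^ (1 / (M : ℝ))⌋₊ with hk
  have hk1 : (k : ℝ) ≤ (N : ℝ) ^ (1 / (M : ℝ)) := Nat.floor_le (by positivity)
  have hk2 : (N : ℝ) ^ (1 / (M : ℝ)) < k + 1 := Nat.lt_floor_add_one _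
  have hky : y ≤ k := by
    rw [hyy] at hk2
    nlinarith
  have hkk : k₀ ≤ k := by
    have : (k₀ : ℝ) ≤ k := by linarith
    exact_mod_cast this
  have hkpos : 1 ≤ k := by
    have : (1 : ℝ) ≤ k := by linarith
    exact_mod_cast this
  have hk0 : (0 : ℝ) < k := by exact_mod_cast hkpos
  have hNM : ((N : ℝ) ^ (1 / (M : ℝ))) ^ M = N := by
    rw [← Real.rpow_natCast, ← Real.rpow_mul hN0.le, one_div, inv_mul_cancel₀ hM0.ne',
      Real.rpow_one]
  have hkN : k ^ M ≤ N := by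
    have : ((k : ℝ)) ^ M ≤ N := by
      rw [← hNM]
      exact pow_le_pow_left₀ hk0.le hk1 M
    exact_mod_cast this
  have hNk : (N : ℝ) ≤ ((k : ℝ) + 1) ^ M := by
    rw [← hNM]
    exact pow_le_pow_left₀ (by positivity) hk2.le M
  -- the frequencies
  have hhk : ∀ i, |h (e' i)| ≤ (k : ℤ) := by
    intro i
    have h1 := (hhN (e' i)).trans hky
    have h2 : ((|h (e' i)| : ℤ) : ℝ) ≤ ((k : ℤ) : ℝ) := by
      push_cast
      exact h1
    exact_mod_cast h2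
  have hqk : q ≤ k := by
    have : (q : ℝ) ≤ k := hqN.trans hky
    exact_mod_cast this
  have hne : (fun i => h (e' i)) ≠ 0 := by
    intro hcon
    apply hh
    funext j
    have := congrFun hcon (e'.symm j)
    simpa using this
  have hS := hk₀ k hkk (fun i => h (e' i)) hne hhk q hq1 hqk
  have hSeq : ∀ n, (∑ i, (h (e' i) : ℝ) * (F i n (α i) / q)) =
      ∑ j, (h j : ℝ) * (F (e'.symm j) n (α (e'.symm j)) / q) := by
    intro n
    rw [← Equiv.sum_comp e']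
    refine sum_congr rfl fun i _ => ?_
    rw [Equiv.symm_apply_apply]
  have hSS : SS P F M k (fun i => h (e' i)) q α = ∑ n ∈ (Finset.Ioc (k ^ M) (2 * k ^ M)).filter P,
      e (∑ j, (h j : ℝ) * (F (e'.symm j) n (α (e'.symm j)) / q)) := by
    unfold SS
    exact sum_congr rfl fun n _ => by rw [hSeq n]
  rw [hSS, sum_filter] at hS
  have hint := interp (fun n => if P n then
      e (∑ j, (h j : ℝ) * (F (e'.symm j) n (α (e'.symm j)) / q)) else 0)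
    (fun n => by
      by_cases hP : P n
      · simp only [if_pos hP]
        exact (norm_e _).le
      · simp only [if_neg hP, norm_zero]
        norm_num) (k ^ M) N hkN
  rw [sum_filter]
  refine hint.trans ?_
  have h1 : ‖∑ n ∈ Finset.Ioc (k ^ M) (2 * k ^ M), (if P n then
      e (∑ j, (h j : ℝ) * (F (e'.symm j) n (α (e'.symm j)) / q)) else 0)‖ ≤ (k : ℝ) ^ (M - 1) := by
    have h2 : (k : ℝ) ^ M = (k : ℝ) ^ (M - 1) * k := by
      rw [← pow_succ]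
      congr 1
      omega
    rw [h2] at hS
    exact le_of_mul_le_mul_right hS hk0
  have h3 : (N : ℝ) - ((k ^ M : ℕ) : ℝ) ≤ M * (2 ^ (M - 1) * (k : ℝ) ^ (M - 1)) := by
    have h4 := pow_succ_sub M k hM
    have h5 : ((k : ℝ) + 1) ^ (M - 1) ≤ (2 * k) ^ (M - 1) := by
      apply pow_le_pow_left₀ (by positivity)
      have : (1 : ℝ) ≤ k := by exact_mod_cast hkpos
      linarith
    rw [mul_pow] at h5
    push_cast
    have h6 := mul_le_mul_of_nonneg_left h5 hM0.le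
    linarith
  have h7 : (k : ℝ) ^ (M - 1) * y ≤ (N : ℝ) ^ (1 - 1 / (2 * (M : ℝ))) := by
    have h8 : (k : ℝ) ^ (M - 1) ≤ (N : ℝ) ^ ((1 / (M : ℝ)) * (M - 1 : ℕ)) := by
      rw [Real.rpow_mul hN0.le, Real.rpow_natCast]
      exact pow_le_pow_left₀ hk0.le hk1 _
    refine (mul_le_mul_of_nonneg_right h8 (by positivity)).trans (le_of_eq ?_)
    rw [hy, ← Real.rpow_add hN0]
    congr 1
    rw [Nat.cast_sub hM]
    field_simp
    push_cast
    ring
  have hkp : (0 : ℝ) ≤ (k : ℝ) ^ (M - 1) := by positivity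
  calc _ ≤ (k : ℝ) ^ (M - 1) + 3 * (M * (2 ^ (M - 1) * (k : ℝ) ^ (M - 1))) := by
        have h9 := mul_le_mul_of_nonneg_left h3 (show (0 : ℝ) ≤ 3 by norm_num)
        linarith
    _ = (k : ℝ) ^ (M - 1) * C := by rw [hC]; ring
    _ ≤ (k : ℝ) ^ (M - 1) * y := by
        apply mul_le_mul_of_nonneg_left _ hkp
        linarith
    _ ≤ _ := h7

/-- the exponent -/
noncomputable def kap (ρ : ℝ) (r : ℕ) : ℝ :=
  1 / (2 * (⌈4 * ((r : ℝ) + 6) / ρ⌉₊ : ℝ)) / (6 * (r + 1)) / (4 * (r + 1)) / (4 * (r + 1))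

lemma kap_pos {ρ : ℝ} (hρ : 0 < ρ) (r : ℕ) : 0 < kap ρ r := by
  have h1 : (0 : ℝ) < (⌈4 * ((r : ℝ) + 6) / ρ⌉₊ : ℝ) := by
    have : (0 : ℝ) < 4 * ((r : ℝ) + 6) / ρ := by positivity
    exact_mod_cast Nat.ceil_pos.2 this
  unfold kap
  positivity

/-- **almost all members of a family of vectors of sequences are well distributed** -/
theorem ae_well [Nonempty ι] (P : ℕ → Prop) [DecidablePred P]
    (hP : ∀ ε : ℝ, 0 < ε → ∃ N₀ : ℕ, ∀ N : ℕ, N₀ ≤ N →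
      (N : ℝ) ^ (1 - ε) ≤ (((Finset.Ioc N (2 * N)).filter P).card : ℝ))
    (ρ : ℝ) (hρ : 0 < ρ) (hρ1 : ρ ≤ 1) (u v : ι → ℝ)
    (huv : ∀ j, u j ≤ v j) (n₀ : ℕ) (F F' F'' : ι → ℕ → ℝ → ℝ)
    (hF : ∀ j, Fam (u j) (v j) ρ n₀ (F j) (F' j) (F'' j)) :
    ∀ᵐ α : ι → ℝ, (∀ i, α i ∈ Set.Ioc (u i) (v i)) → ∃ N₀ : ℕ, ∀ N : ℕ, N₀ ≤ N → ∀ H : ℕ,
      (H : ℝ) ≤ (N : ℝ) ^ kap ρ (Fintype.card ι) →
        Well ((Finset.Ioc N (2 * N)).filter P) (fun n i => ⌊F i n (α i)⌋) H := by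
  set r : ℕ := Fintype.card ι with hr
  set M : ℕ := ⌈4 * ((r : ℝ) + 6) / ρ⌉₊ with hM
  have hMlow : 4 * ((r : ℝ) + 6) / ρ ≤ M := Nat.le_ceil _
  have hMρ : 4 * ((r : ℝ) + 6) ≤ ρ * M := by
    rw [div_le_iff₀ hρ] at hMlow
    linarith
  have hM1 : 1 ≤ M := Nat.ceil_pos.2 (by positivity)
  have hMR : (1 : ℝ) ≤ M := by exact_mod_cast hM1
  have hr1 : 1 ≤ r := Fintype.card_pos
  have hr0 : (0 : ℝ) ≤ r := Nat.cast_nonneg r
  filter_upwards [ae_all P M u v huv ρ n₀ F F' F'' hF hρ hρ1 hMρ] with α hα hu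
  have h1 := small_of P M hM1 F α (Fintype.equivFin ι) (hα hu)
  set η : ℝ := 1 / (2 * (M : ℝ)) with hη
  have hη0 : 0 < η := by positivity
  have hη1 : η ≤ 1 := by
    rw [hη, div_le_one (by positivity)]
    linarith
  have h2 := equi_of_smallE hr1 _ (fun N => Finset.filter_subset _ _) _ hη0 hη1 h1
  obtain ⟨N₀, hN₀⟩ := well_of_equiE (ι := ι) (by positivity) h2
    (hP (η / (6 * ((r : ℝ) + 1)) / (4 * ((r : ℝ) + 1)) / 2) (by positivity)) (Fintype.equivFin ι)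
  refine ⟨N₀, fun N hN H hH => ?_⟩
  have h3 := hN₀ N hN H hH
  have h4 : (fun (n : ℕ) (i : ι) => ⌊F ((Fintype.equivFin ι).symm ((Fintype.equivFin ι) i)) n
      (α ((Fintype.equivFin ι).symm ((Fintype.equivFin ι) i)))⌋) = fun n i => ⌊F i n (α i)⌋ := by
    funext n i
    rw [Equiv.symm_apply_apply]
  rw [← h4]
  exact h3

end

end Pool.Agent.N54.ME
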