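import Pool.Agent.N54.ME.Three
import Pool.Agent.N666.TM.RQ

set_option autoImplicit false
set_option linter.unusedSectionVars false

/-! Euler products over the rational numbers given by local functions of the parameters, along well
distributed sequences (after helper666's `Pool.Agent.N666.TM.RQ.thin_Q`). -/

namespace Pool.Agent.N54.ME

open MeasureTheory Filter Topology
open Pool.Agent.N534.PS (Pow lamT rect)
open Pool.Agent.N534.HC.St (rectangle)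
open Pool.Agent.N534.EC.State (Residues uniform lift primesUpTo)
open Pool.Agent.N666.TM (BoundedOn WellSeq)
open Pool.Agent.N666.VE (primes)
open Pool.Agent.N666.TM.St (ConvergesTo)

section
variable {ι : Type} [Fintype ι] [DecidableEq ι] [Nonempty ι]
variable {w p0 : ℕ} {T : ∀ p : ℕ, ℕ → (ι → ZMod p) → ℝ} {Bad : ∀ p : ℕ, (ι → ZMod p) → Prop}
  {L : (ι → ℤ) → ℂ → Nat.Primes → ℂ} {D : ℝ}

lemma WS.seq_ints {x : ℕ → ι → ℤ} {κ₁ : ℝ} (h : WS x κ₁) :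
    WellSeq (fun N => Finset.Ioc N (2 * N)) x κ₁ := by
  obtain ⟨N₀, h⟩ := h
  exact ⟨N₀, fun N hN H hH => (h N hN H hH).1⟩

lemma WS.seq_primes {x : ℕ → ι → ℤ} {κ₁ : ℝ} (h : WS x κ₁) :
    WellSeq (fun N => primes N) x κ₁ := by
  obtain ⟨N₀, h⟩ := h
  exact ⟨N₀, fun N hN H hH => (h N hN H hH).2⟩

lemma limit_unique {Ω : Type} [MeasurableSpace Ω] {μ : Measure Ω} {R : ℕ → Ω → ℂ}
    (hR : ∀ z, Integrable (R z) μ) {Z Z' : Ω → ℂ} (hZ : Integrable Z μ) (hZ' : Integrable Z' μ)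
    (h : Tendsto (fun z => ∫ x, ‖R z x - Z x‖ ∂μ) atTop (𝓝 0))
    (h' : Tendsto (fun z => ∫ x, ‖R z x - Z' x‖ ∂μ) atTop (𝓝 0)) : Z =ᵐ[μ] Z' := by
  have h1 : ∫ x, ‖Z x - Z' x‖ ∂μ ≤ 0 := by
    have h2 := h.add h'
    rw [add_zero] at h2
    refine ge_of_tendsto' h2 fun z => ?_
    have e1 : ∫ x, (‖R z x - Z x‖ + ‖R z x - Z' x‖) ∂μ =
        ∫ x, ‖R z x - Z x‖ ∂μ + ∫ x, ‖R z x - Z' x‖ ∂μ :=
      integral_add ((hR z).sub hZ).norm ((hR z).sub hZ').norm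
    rw [← e1]
    refine integral_mono (hZ.sub hZ').norm ((((hR z).sub hZ).norm).add (((hR z).sub hZ').norm))
      fun x => ?_
    show ‖Z x - Z' x‖ ≤ ‖R z x - Z x‖ + ‖R z x - Z' x‖
    calc ‖Z x - Z' x‖ = ‖(R z x - Z' x) - (R z x - Z x)‖ := by congr 1; ring
      _ ≤ ‖R z x - Z' x‖ + ‖R z x - Z x‖ := norm_sub_le _ _
      _ = _ := add_comm _ _
  have h3 := (integral_eq_zero_iff_of_nonneg (fun x => norm_nonneg _) (hZ.sub hZ').norm).1
    (le_antisymm h1 (integral_nonneg fun x => norm_nonneg _))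
  filter_upwards [h3] with x hx
  have h4 : ‖Z x - Z' x‖ = 0 := hx
  exact sub_eq_zero.1 (norm_eq_zero.1 h4)

lemma law_congr {Ω : Type} [MeasurableSpace Ω] {μ : Measure Ω} {κ : Type} [Fintype κ]
    {Z Z' : κ → Ω → ℂ} (hZ : ∀ k, Z k =ᵐ[μ] Z' k) :
    (∀ G : (κ → ℂ) → ℝ, ∫ x, G (fun k => Complex.exp (Z k x)) ∂μ =
      ∫ x, G (fun k => Complex.exp (Z' k x)) ∂μ) ∧
    ∀ E : Set (κ → ℂ), μ {x | (fun k => Complex.exp (Z k x)) ∈ E} =
      μ {x | (fun k => Complex.exp (Z' k x)) ∈ E} := by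
  have h0 : ∀ᵐ x ∂μ, (fun k => Complex.exp (Z k x)) = fun k => Complex.exp (Z' k x) := by
    filter_upwards [ae_all_iff.2 hZ] with x hx
    funext k
    rw [hx k]
  refine ⟨fun G => integral_congr_ae ?_, fun E => measure_congr ?_⟩
  · filter_upwards [h0] with x hx
    rw [hx]
  · filter_upwards [h0] with x hx
    exact congrArg (· ∈ E) hx

lemma converges_congr {κ : Type} [Fintype κ] {S : ℕ → Finset ℕ} {X : ℕ → ℕ → κ → ℂ}
    {Z Z' : κ → Residues ι → ℂ} (hZ : ∀ k, Z k =ᵐ[uniform ι] Z' k) (h : ConvergesTo S X Z) :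
    ConvergesTo S X Z' := by
  obtain ⟨e1, e2⟩ := law_congr hZ
  obtain ⟨h1, h2⟩ := h
  refine ⟨fun G hG hb => ?_, fun E hE hf => ?_⟩
  · have h3 := h1 G hG hb
    rw [e1 G] at h3
    exact h3
  · have h3 := h2 E hE (by rw [e2 (frontier E)]; exact hf)
    have h4 : (uniform ι).real {x | (fun k => Complex.exp (Z k x)) ∈ E} =
        (uniform ι).real {x | (fun k => Complex.exp (Z' k x)) ∈ E} := by
      unfold Measure.real
      rw [e2 E]
    rw [h4] at h3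
    exact h3

/-- the supremum near the edge -/
theorem rq_avg (hL : ∀ (c : ι → ℤ) (s : ℂ) (p : Nat.Primes),
      L c s p = lamT w p0 T Bad c (p : ℕ) (s - (1 + (w : ℂ) / 2)))
    (hp : Pow D w p0 T Bad) {x : ℕ → ι → ℤ} {κ₁ : ℝ} (hκ₁ : 0 < κ₁) (hx : WS x κ₁) :
    ∃ C : ℝ, 0 < C ∧ ∃ N₀ : ℕ, ∀ N : ℕ, N₀ ≤ N → ∀ τ : ℝ, 0 ≤ τ →
      BoundedOn (fun n s => ∑' p : Nat.Primes, L (x n) s p) (Finset.Ioc N (2 * N))
        (rectangle w N τ) (C * (1 + τ)) ∧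
      BoundedOn (fun n s => ∑' p : Nat.Primes, L (x n) s p) (primes N)
        (rectangle w N τ) (C * (1 + τ)) := by
  have hlog : ∀ (c : ι → ℤ) (s : ℂ), ∑' p : Nat.Primes, L c s p =
      ∑' p : Nat.Primes, lamT w p0 T Bad c (p : ℕ) (s - (1 + (w : ℂ) / 2)) :=
    fun c s => tsum_congr fun p => hL c s p
  obtain ⟨C₁, hC₁, N₁, g₁⟩ := Pool.Agent.N666.TM.pow_avg hp hκ₁ hx.seq_ints
  obtain ⟨C₂, hC₂, N₂, g₂⟩ := Pool.Agent.N666.TM.pow_avg hp hκ₁ hx.seq_primes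
  have hrect : ∀ (H : ℕ) (τ : ℝ) (s : ℂ), s ∈ rectangle w H τ → s - (1 + (w : ℂ) / 2) ∈ rect H τ := by
    intro H τ s hs
    obtain ⟨h1, h2, h3⟩ := hs
    refine ⟨?_, ?_, ?_⟩
    · rw [Pool.Agent.N534.AS.State.re_sub]; linarith
    · rw [Pool.Agent.N534.AS.State.re_sub]; linarith
    · rw [Pool.Agent.N534.AS.State.im_sub]; exact h3
  have key : ∀ (S : Finset ℕ) (N : ℕ) (τ B : ℝ),
      BoundedOn (fun n u => ∑' p : Nat.Primes, lamT w p0 T Bad (x n) p u) S (rect N τ) B →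
      BoundedOn (fun n s => ∑' p : Nat.Primes, L (x n) s p) S (rectangle w N τ) B := by
    rintro S N τ B ⟨h1, h2⟩
    refine ⟨fun S' hS' s hs => ?_, fun δ hδ => ?_⟩
    · have h3 := h1 S' hS' (fun n => s n - (1 + (w : ℂ) / 2)) (fun n hn => hrect N τ _ (hs n hn))
      simp only [← hlog] at h3
      exact h3
    · obtain ⟨X, hX1, hX2, hX3⟩ := h2 δ hδ
      refine ⟨X, hX1, hX2, fun n hn s hs => ?_⟩
      have h3 := hX3 n hn _ (hrect N τ s hs)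
      simp only [← hlog] at h3
      exact h3
  refine ⟨max C₁ C₂, lt_max_of_lt_left hC₁, max N₁ N₂, fun N hN τ hτ => ⟨?_, ?_⟩⟩
  · refine (key _ _ _ _ (g₁ N ((le_max_left _ _).trans hN) τ hτ)).mono ?_
    gcongr
    exact le_max_left _ _
  · refine (key _ _ _ _ (g₂ N ((le_max_right _ _).trans hN) τ hτ)).mono ?_
    gcongr
    exact le_max_right _ _

/-- the limit law, for any version of the random Euler product -/
theorem rq_law (hL : ∀ (c : ι → ℤ) (s : ℂ) (p : Nat.Primes),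
      L c s p = lamT w p0 T Bad c (p : ℕ) (s - (1 + (w : ℂ) / 2)))
    (hp : Pow D w p0 T Bad) {x : ℕ → ι → ℤ} {κ₁ : ℝ} (hκ₁ : 0 < κ₁) (hx : WS x κ₁)
    {κ : Type} [Fintype κ] (s : κ → ℂ) (Z : κ → Residues ι → ℂ)
    (hs : ∀ k, 1 + (w : ℝ) / 2 ≤ (s k).re) (hZ : ∀ k, Integrable (Z k) (uniform ι))
    (hlim : ∀ k, Tendsto (fun z : ℕ => ∫ x, ‖∑ p ∈ primesUpTo z, L (lift x p) (s k) p - Z k x‖
      ∂(uniform ι)) atTop (𝓝 0))
    (σ : ℕ → κ → ℂ) (hσ : ∀ k, Tendsto (fun H => σ H k) atTop (𝓝 (s k)))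
    (hσl : ∀ k, Tendsto (fun H : ℕ => ((σ H k).re - (1 + (w : ℝ) / 2)) * Real.log H) atTop atTop) :
    ConvergesTo (fun N => Finset.Ioc N (2 * N))
      (fun H n k => ∏' p : Nat.Primes, Complex.exp (L (x n) (σ H k) p)) Z ∧
    ConvergesTo (fun N => primes N)
      (fun H n k => ∏' p : Nat.Primes, Complex.exp (L (x n) (σ H k) p)) Z := by
  obtain ⟨Z₀, _, h2, h3, h4⟩ := Pool.Agent.N666.TM.RQ.lawS hL hp s hs
  have hR : ∀ k (z : ℕ), Integrable (fun y : Residues ι => ∑ p ∈ primesUpTo z, L (lift y p) (s k) p)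
      (uniform ι) := by
    intro k z
    have h5 : (fun y : Residues ι => ∑ p ∈ primesUpTo z, L (lift y p) (s k) p) =
        Pool.Agent.N534.LL.Y (lamT w p0 T Bad) z (s k - (1 + (w : ℂ) / 2)) :=
      funext fun y => Pool.Agent.N666.TM.RQ.randomLog_eq hL z (s k) y
    rw [h5]
    exact Pool.Agent.N534.LL.Y_integrable z _
  have hae : ∀ k, Z₀ k =ᵐ[uniform ι] Z k := fun k =>
    limit_unique (hR k) (h2 k) (hZ k) (h3 k) (hlim k)
  exact ⟨converges_congr hae (h4 _ x κ₁ hκ₁ hx.seq_ints σ hσ hσl),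
    converges_congr hae (h4 _ x κ₁ hκ₁ hx.seq_primes σ hσ hσl)⟩

/-- the random Euler product -/
theorem rq_random (hL : ∀ (c : ι → ℤ) (s : ℂ) (p : Nat.Primes),
      L c s p = lamT w p0 T Bad c (p : ℕ) (s - (1 + (w : ℂ) / 2)))
    (hp : Pow D w p0 T Bad) (s : ℂ) (hs : 1 + (w : ℝ) / 2 ≤ s.re) :
    ∃ Z : Residues ι → ℂ, Measurable Z ∧ Integrable Z (uniform ι) ∧
      Tendsto (fun z : ℕ => ∫ x, ‖∑ p ∈ primesUpTo z, L (lift x p) s p - Z x‖ ∂(uniform ι))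
        atTop (𝓝 0) := by
  obtain ⟨Z, h1, h2, h3, _⟩ := Pool.Agent.N666.TM.RQ.lawS hL hp (fun _ : Unit => s) fun _ => hs
  exact ⟨Z (), h1 (), h2 (), h3 ()⟩

end

end Pool.Agent.N54.ME
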