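import Pool.Agent.N54.ME.Prod
import Pool.Agent.N666.VE.FCMain

set_option autoImplicit false

/-! Almost all members of the families of sequences `⌊F i n (α i)⌋`, `⌊α i * g i n + c i n⌋` and
`⌊α i ^ g i n + c i n⌋` are well distributed. -/

namespace Pool.Agent.N54.ME

open Finset Filter MeasureTheory
open Pool.Agent.TH668.Met
open Pool.Agent.N666.TM Pool.Agent.Y722.HS

/-- the derivatives of the members are separated and the second derivatives increase -/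
def Spread (ρ u v : ℝ) (F : ℕ → ℝ → ℝ) : Prop :=
  (∀ n, ContDiff ℝ 2 (F n)) ∧ ∃ n₀ : ℕ, ∀ n, n₀ ≤ n → ∀ x ∈ Set.Icc u v,
    (n : ℝ) ^ (ρ - 1) ≤ deriv (F (n + 1)) x - deriv (F n) x ∧
      deriv (deriv (F n)) x ≤ deriv (deriv (F (n + 1))) x

lemma Spread.fam {ρ u v : ℝ} {F : ℕ → ℝ → ℝ} (h : Spread ρ u v F) : ∃ n₀ : ℕ, ∀ n₁, n₀ ≤ n₁ →
    Fam u v ρ n₁ F (fun n => deriv (F n)) (fun n => deriv (deriv (F n))) := by
  obtain ⟨hc, n₀, h⟩ := h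
  have hc1 : ∀ n, ContDiff ℝ 1 (deriv (F n)) := fun n => by
    have h1 : ContDiff ℝ (1 + 1) (F n) := by
      have h2 : (1 + 1 : WithTop ℕ∞) = 2 := by norm_num
      rw [h2]
      exact hc n
    exact (contDiff_succ_iff_deriv.1 h1).2.2
  refine ⟨n₀, fun n₁ hn₁ => ⟨fun n x => ?_, fun n x => ?_, fun n => ?_, fun n hn x hx => ?_,
    fun n hn x hx => ?_⟩⟩
  · exact ((hc n).differentiable (by norm_num) x).hasDerivAt
  · exact ((hc1 n).differentiable (by norm_num) x).hasDerivAt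
  · exact (hc1 n).continuous_deriv le_rfl
  · exact (h n (hn₁.trans hn) x hx).1
  · exact sub_nonneg.2 (h n (hn₁.trans hn) x hx).2

section
variable {ι : Type} [Fintype ι] [DecidableEq ι]

/-- well distributed modulo the integers up to `N ^ κ`, over the integers and over the primes -/
def WS (x : ℕ → ι → ℤ) (κ : ℝ) : Prop :=
  ∃ N₀ : ℕ, ∀ N : ℕ, N₀ ≤ N → ∀ H : ℕ, (H : ℝ) ≤ (N : ℝ) ^ κ →
    Well (Finset.Ioc N (2 * N)) x H ∧ Well (Pool.Agent.N666.VE.primes N) x H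

lemma many_ints : ∀ ε : ℝ, 0 < ε → ∃ N₀ : ℕ, ∀ N : ℕ, N₀ ≤ N →
    (N : ℝ) ^ (1 - ε) ≤ (((Finset.Ioc N (2 * N)).filter fun _ => True).card : ℝ) := by
  intro ε hε
  refine ⟨1, fun N hN => ?_⟩
  have hN1 : (1 : ℝ) ≤ N := by exact_mod_cast hN
  rw [Finset.filter_true, Nat.card_Ioc, show 2 * N - N = N by omega]
  calc (N : ℝ) ^ (1 - ε) ≤ (N : ℝ) ^ (1 : ℝ) :=
        Real.rpow_le_rpow_of_exponent_le hN1 (by linarith)
    _ = N := Real.rpow_one _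

lemma many_primes : ∀ ε : ℝ, 0 < ε → ∃ N₀ : ℕ, ∀ N : ℕ, N₀ ≤ N →
    (N : ℝ) ^ (1 - ε) ≤ (((Finset.Ioc N (2 * N)).filter Nat.Prime).card : ℝ) := by
  intro ε hε
  obtain ⟨N₀, h⟩ := eventually_atTop.1 (Pool.Agent.N666.VE.card_primes' (4 * ε) (by positivity))
  refine ⟨N₀, fun N hN => ?_⟩
  have h1 := h N hN
  rw [show 1 - 4 * ε / 4 = 1 - ε by ring] at h1
  exact h1

theorem spread_ws [Nonempty ι] {ρ : ℝ} (hρ : 0 < ρ) (hρ1 : ρ ≤ 1) (u v : ι → ℝ)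
    (F : ι → ℕ → ℝ → ℝ) (hF : ∀ j, Spread ρ (u j) (v j) (F j)) :
    ∀ᵐ α : ι → ℝ, (∀ i, α i ∈ Set.Ioc (u i) (v i)) →
      WS (fun n i => ⌊F i n (α i)⌋) (kap ρ (Fintype.card ι)) := by
  by_cases huv : ∀ j, u j ≤ v j
  · choose n₀ hn₀ using fun j => (hF j).fam
    have hfam := fun j => hn₀ j (∑ j, n₀ j)
      (single_le_sum (f := n₀) (fun _ _ => Nat.zero_le _) (mem_univ j))
    filter_upwards [ae_well (fun _ => True) many_ints ρ hρ hρ1 u v huv (∑ j, n₀ j) F _ _ hfam,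
      ae_well Nat.Prime many_primes ρ hρ hρ1 u v huv (∑ j, n₀ j) F _ _ hfam] with α h1 h2 hα
    obtain ⟨N₁, h1⟩ := h1 hα
    obtain ⟨N₂, h2⟩ := h2 hα
    refine ⟨N₁ + N₂, fun N hN H hH => ⟨?_, h2 N (by omega) H hH⟩⟩
    have h3 := h1 N (by omega) H hH
    rw [Finset.filter_true] at h3
    exact h3
  · push Not at huv
    obtain ⟨j, hj⟩ := huv
    refine Eventually.of_forall fun α hα => ?_
    have := hα j
    exact absurd (this.1.trans_le this.2) (not_lt.2 hj.le)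

lemma spread_lin {ρ : ℝ} (u v : ℝ) (g c : ℕ → ℝ)
    (hg : ∀ᶠ n : ℕ in atTop, (n : ℝ) ^ (ρ - 1) ≤ g (n + 1) - g n) :
    Spread ρ u v (fun n x => x * g n + c n) := by
  obtain ⟨n₀, hn₀⟩ := eventually_atTop.mp hg
  have h1 : ∀ n, deriv (fun x : ℝ => x * g n + c n) = fun _ => g n := by
    intro n
    funext x
    have : HasDerivAt (fun x : ℝ => x * g n + c n) (1 * g n) x :=
      ((hasDerivAt_id x).mul_const (g n)).add_const (c n)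
    rw [this.deriv, one_mul]
  refine ⟨fun n => (contDiff_id.mul contDiff_const).add contDiff_const, n₀, fun n hn x _ => ?_⟩
  rw [h1, h1]
  refine ⟨hn₀ n hn, ?_⟩
  simp

lemma spread_pow {ρ : ℝ} (hρ1 : ρ ≤ 1) (u v : ℝ) (hu : 1 ≤ u) (g : ℕ → ℕ) (hg : StrictMono g)
    (c : ℕ → ℝ) : Spread ρ u v (fun n x => x ^ g n + c n) := by
  have h1 : ∀ n, deriv (fun x : ℝ => x ^ g n + c n) = fun x => (g n : ℝ) * x ^ (g n - 1) := by
    intro n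
    funext x
    exact ((hasDerivAt_pow (g n) x).add_const (c n)).deriv
  have h2 : ∀ n, deriv (fun x : ℝ => (g n : ℝ) * x ^ (g n - 1)) =
      fun x => (g n : ℝ) * (((g n - 1 : ℕ) : ℝ) * x ^ (g n - 1 - 1)) := by
    intro n
    funext x
    exact ((hasDerivAt_pow (g n - 1) x).const_mul _).deriv
  refine ⟨fun n => (contDiff_id.pow _).add contDiff_const, 1, fun n hn x hx => ?_⟩
  rw [h1, h1, h2, h2]
  have hx1 : 1 ≤ x := hu.trans hx.1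
  have hlt : g n < g (n + 1) := hg (Nat.lt_succ_self n)
  have hR : (g n : ℝ) + 1 ≤ g (n + 1) := by exact_mod_cast hlt
  have hg0 : (0 : ℝ) ≤ g n := Nat.cast_nonneg _
  constructor
  · have hn1 : (1 : ℝ) ≤ n := by exact_mod_cast hn
    have h3 : (n : ℝ) ^ (ρ - 1) ≤ 1 := Real.rpow_le_one_of_one_le_of_nonpos hn1 (by linarith)
    have h4 : x ^ (g n - 1) ≤ x ^ (g (n + 1) - 1) := pow_le_pow_right₀ hx1 (by omega)
    have h5 : (1 : ℝ) ≤ x ^ (g (n + 1) - 1) := one_le_pow₀ hx1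
    have h6 : (g n : ℝ) * x ^ (g n - 1) ≤ g n * x ^ (g (n + 1) - 1) :=
      mul_le_mul_of_nonneg_left h4 hg0
    nlinarith
  · have h4 : x ^ (g n - 1 - 1) ≤ x ^ (g (n + 1) - 1 - 1) := pow_le_pow_right₀ hx1 (by omega)
    have h5 : ((g n - 1 : ℕ) : ℝ) ≤ ((g (n + 1) - 1 : ℕ) : ℝ) := by
      exact_mod_cast (by omega : g n - 1 ≤ g (n + 1) - 1)
    have h6 : (g n : ℝ) ≤ g (n + 1) := by linarith
    have h7 : (0 : ℝ) ≤ x ^ (g n - 1 - 1) := by positivity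
    have h8 : (0 : ℝ) ≤ ((g n - 1 : ℕ) : ℝ) := Nat.cast_nonneg _
    exact mul_le_mul h6 (mul_le_mul h5 h4 h7 (h8.trans h5)) (mul_nonneg h8 h7) (hg0.trans h6)

theorem lin_ws [Nonempty ι] {ρ : ℝ} (hρ : 0 < ρ) (hρ1 : ρ ≤ 1) (g c : ι → ℕ → ℝ)
    (hg : ∀ i, ∀ᶠ n : ℕ in atTop, (n : ℝ) ^ (ρ - 1) ≤ g i (n + 1) - g i n) :
    ∀ᵐ α : ι → ℝ, WS (fun n i => ⌊α i * g i n + c i n⌋) (kap ρ (Fintype.card ι)) := by
  have h1 : ∀ᵐ α : ι → ℝ, ∀ m : ℕ, (∀ i, α i ∈ Set.Ioc (-(m : ℝ)) m) →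
      WS (fun n i => ⌊α i * g i n + c i n⌋) (kap ρ (Fintype.card ι)) :=
    ae_all_iff.2 fun m => spread_ws hρ hρ1 (fun _ => -(m : ℝ)) (fun _ => m)
      (fun i n x => x * g i n + c i n) fun i => spread_lin _ _ (g i) (c i) (hg i)
  filter_upwards [h1] with α hα
  obtain ⟨m, hm⟩ := exists_nat_gt (∑ i, |α i|)
  refine hα m fun i => ?_
  have h2 : |α i| ≤ ∑ i, |α i| := single_le_sum (f := fun i => |α i|) (fun _ _ => abs_nonneg _)
    (mem_univ i)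
  have h3 := abs_lt.1 (h2.trans_lt hm)
  exact ⟨h3.1, h3.2.le⟩

theorem pow_ws [Nonempty ι] {ρ : ℝ} (hρ : 0 < ρ) (hρ1 : ρ ≤ 1) (g : ι → ℕ → ℕ)
    (hg : ∀ i, StrictMono (g i)) (c : ι → ℕ → ℝ) :
    ∀ᵐ α : ι → ℝ, (∀ i, 1 < α i) →
      WS (fun n i => ⌊α i ^ g i n + c i n⌋) (kap ρ (Fintype.card ι)) := by
  have h1 : ∀ᵐ α : ι → ℝ, ∀ m : ℕ, (∀ i, α i ∈ Set.Ioc (1 : ℝ) m) →
      WS (fun n i => ⌊α i ^ g i n + c i n⌋) (kap ρ (Fintype.card ι)) :=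
    ae_all_iff.2 fun m => spread_ws hρ hρ1 (fun _ => (1 : ℝ)) (fun _ => m)
      (fun i n x => x ^ g i n + c i n) fun i => spread_pow hρ1 _ _ le_rfl (g i) (hg i) (c i)
  filter_upwards [h1] with α hα h
  obtain ⟨m, hm⟩ := exists_nat_gt (∑ i, |α i|)
  refine hα m fun i => ⟨h i, ?_⟩
  have h2 : |α i| ≤ ∑ i, |α i| := single_le_sum (f := fun i => |α i|) (fun _ _ => abs_nonneg _)
    (mem_univ i)
  exact ((le_abs_self _).trans h2).trans hm.le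

/-- the three kinds of families -/
theorem three [Nonempty ι] {ρ : ℝ} (hρ : 0 < ρ) (hρ1 : ρ ≤ 1) (B : (ℕ → ι → ℤ) → Prop)
    (hB : ∀ x : ℕ → ι → ℤ, WS x (kap ρ (Fintype.card ι)) → B x) :
    (∀ (u v : ι → ℝ) (F : ι → ℕ → ℝ → ℝ), (∀ j, Spread ρ (u j) (v j) (F j)) →
      ∀ᵐ α : ι → ℝ, (∀ i, α i ∈ Set.Ioc (u i) (v i)) → B (fun n i => ⌊F i n (α i)⌋)) ∧
    (∀ g c : ι → ℕ → ℝ, (∀ i, ∀ᶠ n : ℕ in atTop, (n : ℝ) ^ (ρ - 1) ≤ g i (n + 1) - g i n) →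
      ∀ᵐ α : ι → ℝ, B (fun n i => ⌊α i * g i n + c i n⌋)) ∧
    (∀ (g : ι → ℕ → ℕ) (c : ι → ℕ → ℝ), (∀ i, StrictMono (g i)) →
      ∀ᵐ α : ι → ℝ, (∀ i, 1 < α i) → B (fun n i => ⌊α i ^ g i n + c i n⌋)) := by
  refine ⟨fun u v F hF => ?_, fun g c hg => ?_, fun g c hg => ?_⟩
  · filter_upwards [spread_ws hρ hρ1 u v F hF] with α hα h
    exact hB _ (hα h)
  · filter_upwards [lin_ws hρ hρ1 g c hg] with α hα
    exact hB _ hα
  · filter_upwards [pow_ws hρ hρ1 g hg c] with α hα h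
    exact hB _ (hα h)

end

end Pool.Agent.N54.ME
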