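import Pool.Agent.N54.ME.Three
import Pool.Agent.N666.TM.Law

set_option autoImplicit false

/-! Well distributed sequences of pairs, indexed by `Fin 2` or by `Fin 1 ⊕ Fin 1`. -/

namespace Pool.Agent.N54.ME

open Finset
open Pool.Agent.N666.TM Pool.Agent.Y722.HS Pool.Agent.Y722.LS

/-- the pair as a family indexed by `Fin 1 ⊕ Fin 1` -/
def pairOf (x : ℕ → Fin 2 → ℤ) (n : ℕ) : Fin 1 ⊕ Fin 1 → ℤ := Sum.elim (fun _ => x n 0) (fun _ => x n 1)

lemma well_pair {s : Finset ℕ} {x : ℕ → Fin 2 → ℤ} {H : ℕ} (h : Well s x H) : Well s (pairOf x) H := by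
  classical
  refine ⟨h.pos, fun q hq1 hq2 σ => ?_⟩
  have h1 := h.dist q hq1 hq2 ![σ (Sum.inl 0), σ (Sum.inr 0)]
  have e1 : Fintype.card (Fin 1 ⊕ Fin 1) = Fintype.card (Fin 2) := by simp
  have e2 : {n ∈ s | red q (pairOf x n) = σ} =
      {n ∈ s | red q (x n) = ![σ (Sum.inl 0), σ (Sum.inr 0)]} := by
    refine Finset.filter_congr fun n _ => ?_
    constructor
    · intro hn
      funext i
      fin_cases i
      · exact congrFun hn (Sum.inl 0)
      · exact congrFun hn (Sum.inr 0)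
    · intro hn
      funext i
      rcases i with i | i
      · rw [Subsingleton.elim i 0]
        exact congrFun hn 0
      · rw [Subsingleton.elim i 0]
        exact congrFun hn 1
  rw [e2, e1]
  exact h1

lemma WS.pair {x : ℕ → Fin 2 → ℤ} {κ : ℝ} (h : WS x κ) :
    WellSeq (fun N => Finset.Ioc N (2 * N)) (pairOf x) κ ∧
    WellSeq (fun N => Pool.Agent.N666.VE.primes N) (pairOf x) κ := by
  obtain ⟨N₀, h⟩ := h
  exact ⟨⟨N₀, fun N hN H hH => well_pair (h N hN H hH).1⟩,
    ⟨N₀, fun N hN H hH => well_pair (h N hN H hH).2⟩⟩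

end Pool.Agent.N54.ME
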